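import Pool.Agent.H83.Blk.Rot

set_option autoImplicit false
open Filter Topology

namespace Pool.Agent.H83.Blk

variable {Z : Type} [NormedAddCommGroup Z] [NormedSpace ℝ Z]

theorem zero_of_orbit {v w : Z} (h : ∀ k : ℕ, ‖v + (k : ℝ) • w‖ = ‖v‖) : w = 0 := by
  by_contra hw
  have hw' : 0 < ‖w‖ := norm_pos_iff.2 hw
  obtain ⟨k, hk⟩ := exists_nat_gt (2 * ‖v‖ / ‖w‖)
  have h1 : ‖(k : ℝ) • w‖ ≤ 2 * ‖v‖ := by
    have : (k : ℝ) • w = (v + (k : ℝ) • w) - v := by abel
    rw [this]
    calc _ ≤ ‖v + (k : ℝ) • w‖ + ‖v‖ := norm_sub_le _ _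
      _ = 2 * ‖v‖ := by rw [h k]; ring
  rw [norm_smul, Real.norm_eq_abs, abs_of_nonneg (Nat.cast_nonneg k)] at h1
  rw [div_lt_iff₀ hw'] at hk
  linarith

namespace RP

variable {g h : Z} {φ ψ : Z →L[ℝ] ℝ}

theorem ne_zero (hg : RP g φ) : g ≠ 0 := by
  intro h0
  have := hg.nrm
  rw [h0, norm_zero] at this
  exact zero_ne_one this

theorem neg (hg : RP g φ) : RP (-g) (-φ) where
  one := by simp [hg.one]
  nrm := by rw [norm_neg, hg.nrm]
  refl := by
    intro x
    have := hg.refl x
    simpa using this

theorem unique (hg : RP g φ) (hh : RP g ψ) : φ = ψ := by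
  ext x
  set w : Z := (2 * (ψ x - φ x)) • g with hw
  have hB : ∀ z, ‖z + (2 * (ψ z - φ z)) • g‖ = ‖z‖ := by
    intro z
    have h1 := hg.refl (z - (2 * ψ z) • g)
    rw [hh.refl z] at h1
    rw [← h1]
    congr 1
    simp only [map_sub, map_smul, hg.one, smul_eq_mul]
    module
  have h0 : w = 0 := by
    refine zero_of_orbit (v := x) fun k => ?_
    induction k with
    | zero => simp
    | succ k ih =>
      rw [← ih, ← hB (x + (k : ℝ) • w)]
      congr 1
      simp only [hw, map_add, map_smul, hg.one, hh.one, smul_eq_mul]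
      push_cast
      module
  rw [hw, smul_eq_zero] at h0
  rcases h0 with h0 | h0
  · linarith
  · exact absurd h0 hg.ne_zero

theorem map {W : Type} [NormedAddCommGroup W] [NormedSpace ℝ W] (hg : RP g φ) (T : Z ≃ₗᵢ[ℝ] W) :
    RP (T g) (φ.comp (T.symm.toContinuousLinearEquiv : W →L[ℝ] Z)) where
  one := by simp [hg.one]
  nrm := by simp [hg.nrm]
  refl := by
    intro x
    have h1 := hg.refl (T.symm x)
    rw [LinearIsometryEquiv.norm_map] at h1
    rw [← h1, ← T.norm_map]
    simp

theorem eq_or_neg_of_dep (hg : RP g φ) (hh : RP h ψ) {r : ℝ} (hr : h = r • g) :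
    (h = g ∨ h = -g) ∧ φ h * ψ g = 1 := by
  have h1 : |r| = 1 := by
    have := hh.nrm
    rw [hr, norm_smul, hg.nrm, mul_one, Real.norm_eq_abs] at this
    exact this
  have h2 : r * r = 1 := by
    rw [← abs_mul_abs_self, h1]; norm_num
  have h3 : φ h = r := by rw [hr, map_smul, hg.one]; simp
  have h4 : r * ψ g = 1 := by
    have := hh.one
    rw [hr, map_smul] at this
    simpa using this
  refine ⟨?_, by rw [h3, h4]⟩
  rcases eq_or_eq_neg_of_abs_eq h1 with h5 | h5
  · left; rw [hr, h5, one_smul]
  · right; rw [hr, h5, neg_one_smul]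

/-- the main facts on two reflections -/
theorem pair (hg : RP g φ) (hh : RP h ψ) :
    0 ≤ φ h * ψ g ∧ φ h * ψ g ≤ 1 ∧ (φ h = 0 ↔ ψ g = 0) ∧
      (φ h * ψ g = 1 → (h = g ∨ h = -g)) := by
  by_cases hdep : ∃ r : ℝ, h = r • g
  · obtain ⟨r, hr⟩ := hdep
    obtain ⟨h1, h2⟩ := hg.eq_or_neg_of_dep hh hr
    refine ⟨by rw [h2]; norm_num, by rw [h2], ?_, fun _ => h1⟩
    constructor
    · intro h3; rw [h3, zero_mul] at h2; exact absurd h2 zero_ne_one
    · intro h3; rw [h3, mul_zero] at h2; exact absurd h2 zero_ne_one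
  push Not at hdep
  set c := φ h with hc
  set d := ψ g with hd
  have hA : ∀ z, ‖z - (2 * ψ z) • h - (2 * (φ z - 2 * ψ z * c)) • g‖ = ‖z‖ := by
    intro z
    have h1 := hg.refl (z - (2 * ψ z) • h)
    rw [hh.refl z] at h1
    rw [← h1]
    congr 2
    simp only [map_sub, map_smul, smul_eq_mul, ← hc]
  -- the case cd = 1
  have hcd1 : c * d ≠ 1 := by
    intro h1
    have hy : g - d • h = 0 := by
      have : (2 : ℝ) • (g - d • h) = 0 := by
        refine zero_of_orbit (v := g) fun k => ?_
        induction k with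
        | zero => simp
        | succ k ih =>
          have p1 : φ (g + (k : ℝ) • (2 : ℝ) • (g - d • h)) = 1 := by
            simp only [map_add, map_sub, map_smul, hg.one, smul_eq_mul, ← hc]
            linear_combination (-(2 * (k : ℝ))) * h1
          have p2 : ψ (g + (k : ℝ) • (2 : ℝ) • (g - d • h)) = d := by
            simp only [map_add, map_sub, map_smul, hh.one, smul_eq_mul, ← hd]
            ring
          rw [← ih, ← hA (g + (k : ℝ) • (2 : ℝ) • (g - d • h)), p1, p2]
          have p3 : 2 * (1 - 2 * d * c) = -2 := by linear_combination (-4 : ℝ) * h1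
          rw [p3]
          congr 1
          push_cast
          module
      rcases smul_eq_zero.1 this with h3 | h3
      · norm_num at h3
      · exact h3
    have hd0 : d ≠ 0 := by rintro h0; rw [h0, mul_zero] at h1; exact zero_ne_one h1
    refine hdep d⁻¹ ?_
    have : g = d • h := sub_eq_zero.1 hy
    rw [this, smul_smul, inv_mul_cancel₀ hd0, one_smul]
  -- the case cd = 0
  have hcd0 : c = 0 ↔ d = 0 := by
    constructor
    · intro h0
      by_contra hd0
      have : (2 * d) • h = 0 := by
        refine zero_of_orbit (v := g) fun k => ?_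
        induction k with
        | zero => simp
        | succ k ih =>
          have p1 : φ (g + (k : ℝ) • (2 * d) • h) = 1 := by
            simp only [map_add, map_smul, hg.one, smul_eq_mul, ← hc, h0]
            ring
          have p2 : ψ (g + (k : ℝ) • (2 * d) • h) = d + 2 * k * d := by
            simp only [map_add, map_smul, hh.one, smul_eq_mul, ← hd]
            ring
          rw [← ih, ← hA (g + (k : ℝ) • (2 * d) • h), p1, p2, h0, ← norm_neg]
          congr 1
          push_cast
          module
      rcases smul_eq_zero.1 this with h3 | h3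
      · exact hd0 (by linarith)
      · exact hh.ne_zero h3
    · intro h0
      by_contra hc0
      have : (-(2 * c)) • g = 0 := by
        refine zero_of_orbit (v := h) fun k => ?_
        induction k with
        | zero => simp
        | succ k ih =>
          have p1 : φ (h + (k : ℝ) • (-(2 * c)) • g) = c - 2 * k * c := by
            simp only [map_add, map_smul, hg.one, smul_eq_mul, ← hc]
            ring
          have p2 : ψ (h + (k : ℝ) • (-(2 * c)) • g) = 1 := by
            simp only [map_add, map_smul, hh.one, smul_eq_mul, ← hd, h0]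
            ring
          rw [← ih, ← hA (h + (k : ℝ) • (-(2 * c)) • g), p1, p2, ← norm_neg]
          congr 1
          push_cast
          module
      rcases smul_eq_zero.1 this with h3 | h3
      · exact hc0 (by linarith)
      · exact hg.ne_zero h3
  -- eigenvector
  have heig : ∀ l : ℝ, l ^ 2 - (4 * (c * d) - 2) * l + 1 = 0 → 1 < |l| → False := by
    intro l hl1 hl2
    have hx := hA ((1 + l) • g - (2 * d) • h)
    have p1 : φ ((1 + l) • g - (2 * d) • h) = 1 + l - 2 * d * c := by
      simp only [map_sub, map_smul, hg.one, smul_eq_mul, ← hc]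
      ring
    have p2 : ψ ((1 + l) • g - (2 * d) • h) = (l - 1) * d := by
      simp only [map_sub, map_smul, hh.one, smul_eq_mul, ← hd]
      ring
    rw [p1, p2] at hx
    have p3 : (1 + l) • g - (2 * d) • h - (2 * ((l - 1) * d)) • h -
        (2 * (1 + l - 2 * d * c - 2 * ((l - 1) * d) * c)) • g =
        l • ((1 + l) • g - (2 * d) • h) := by
      have p4 : 2 * (1 + l - 2 * d * c - 2 * ((l - 1) * d) * c) = (1 + l) - l * (1 + l) := by
        linear_combination hl1
      rw [p4]
      module
    rw [p3, norm_smul, Real.norm_eq_abs] at hx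
    have hne : ‖(1 + l) • g - (2 * d) • h‖ ≠ 0 := by
      intro h0
      have h1 := norm_eq_zero.1 h0
      have hl3 : 1 + l ≠ 0 := by
        intro h2
        have : l = -1 := by linarith
        rw [this] at hl2
        norm_num at hl2
      by_cases hd0 : d = 0
      · rw [hd0, mul_zero, zero_smul, sub_zero] at h1
        rcases smul_eq_zero.1 h1 with h3 | h3
        · exact hl3 h3
        · exact hg.ne_zero h3
      · refine hdep ((2 * d)⁻¹ * (1 + l)) ?_
        rw [mul_smul, sub_eq_zero.1 h1, smul_smul, inv_mul_cancel₀ (by simpa using hd0),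
          one_smul]
    have : |l| = 1 := by
      have h2 : |l| * ‖(1 + l) • g - (2 * d) • h‖ = 1 * ‖(1 + l) • g - (2 * d) • h‖ := by
        rw [hx, one_mul]
      exact mul_right_cancel₀ hne h2
    linarith
  have h0 : 0 ≤ c * d := by
    by_contra hneg
    push Not at hneg
    set τ := 4 * (c * d) - 2 with hτ
    have hdisc : 0 < τ ^ 2 - 4 := by nlinarith
    set s := Real.sqrt (τ ^ 2 - 4) with hs
    have hs2 : s ^ 2 = τ ^ 2 - 4 := Real.sq_sqrt hdisc.le
    have hs0 : 0 < s := Real.sqrt_pos.2 hdisc
    refine heig ((τ - s) / 2) ?_ ?_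
    · linear_combination (1 / 4 : ℝ) * hs2
    · rw [abs_of_neg (by linarith)]; linarith
  have h1 : c * d ≤ 1 := by
    by_contra hneg
    push Not at hneg
    set τ := 4 * (c * d) - 2 with hτ
    have hdisc : 0 < τ ^ 2 - 4 := by nlinarith
    set s := Real.sqrt (τ ^ 2 - 4) with hs
    have hs2 : s ^ 2 = τ ^ 2 - 4 := Real.sq_sqrt hdisc.le
    have hs0 : 0 < s := Real.sqrt_pos.2 hdisc
    refine heig ((τ + s) / 2) ?_ ?_
    · linear_combination (1 / 4 : ℝ) * hs2
    · rw [abs_of_pos (by linarith)]; linarith
  exact ⟨h0, h1, hcd0, fun h2 => absurd h2 hcd1⟩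

end RP

end Pool.Agent.H83.Blk
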