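import Pool.Agent.H83.Blk.Rot

/-!
Normalized 1-unconditional bases and normalized block sequences.
-/

set_option autoImplicit false
open Filter Topology

namespace Pool.Agent.H83.Blk

/-- `e` is a normalized 1-unconditional basis (`DenseRange` = the span is dense). -/
structure UB {Z : Type} [NormedAddCommGroup Z] [NormedSpace ℝ Z] (e : ℕ → Z) : Prop where
  nrm : ∀ n, ‖e n‖ = 1
  unc : ∀ ε : ℕ → ℝ, (∀ n, ε n = 1 ∨ ε n = -1) → ∀ a : ℕ →₀ ℝ,
    ‖Finsupp.linearCombination ℝ (fun n => ε n • e n) a‖ = ‖Finsupp.linearCombination ℝ e a‖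
  dense : DenseRange (Finsupp.linearCombination ℝ e)

/-- the set of values of `‖α g₀ + β g₁‖` over commuting pairs of reflections -/
def pairVals (Z : Type) [NormedAddCommGroup Z] [NormedSpace ℝ Z] (α β : ℝ) : Set ℝ :=
  {t | ∃ (g₀ g₁ : Z) (φ₀ φ₁ : Z →L[ℝ] ℝ), RP g₀ φ₀ ∧ RP g₁ φ₁ ∧ φ₀ g₁ = 0 ∧ φ₁ g₀ = 0 ∧
    t = ‖α • g₀ + β • g₁‖}

variable {X : Type} [NormedAddCommGroup X] [NormedSpace ℝ X]

/-- the `k`-th vector of the block sequence given by `p` and `b` -/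
def blk (e : ℕ → X) (p : ℕ → ℕ) (b : ℕ → ℝ) (k : ℕ) : X :=
  ∑ n ∈ Finset.Ico (p k) (p (k + 1)), b n • e n

/-- normalized block sequence -/
def IsNBlk (e : ℕ → X) (p : ℕ → ℕ) (b : ℕ → ℝ) : Prop :=
  StrictMono p ∧ ∀ k, ‖blk e p b k‖ = 1

/-- the closed span of the block sequence -/
def blkSpan (e : ℕ → X) (p : ℕ → ℕ) (b : ℕ → ℝ) : Submodule ℝ X :=
  (Submodule.span ℝ (Set.range (blk e p b))).topologicalClosure

end Pool.Agent.H83.Blk
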