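import Pool.Agent.H83.Blk.Defs

set_option autoImplicit false
open scoped ENNReal ZeroAtInfty

namespace Pool.Agent.H83.Blk

/-- isometric to `c₀` or to some `ℓ_q` -/
def C0orLq (X : Type) [NormedAddCommGroup X] [NormedSpace ℝ X] : Prop :=
  Nonempty (X ≃ₗᵢ[ℝ] (ℕ →C₀ ℝ)) ∨
    ∃ q : ℝ≥0∞, ∃ _ : Fact (1 ≤ q), q ≠ ∞ ∧ Nonempty (X ≃ₗᵢ[ℝ] ↥(lp (fun _ : ℕ => ℝ) q))

/-- `u` is 1-unconditional: finite sums keep their norm under changes of signs. -/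
def OneUnc {X : Type} [NormedAddCommGroup X] [NormedSpace ℝ X] (u : ℕ → X) : Prop :=
  ∀ (ε a : ℕ → ℝ) (N : ℕ), (∀ n, ε n = 1 ∨ ε n = -1) →
    ‖∑ n ∈ Finset.range N, (ε n * a n) • u n‖ = ‖∑ n ∈ Finset.range N, a n • u n‖

end Pool.Agent.H83.Blk
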