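import Pool.Agent.H83.Blk.Str

set_option autoImplicit false
open Filter Topology

namespace Pool.Agent.H83.Blk
namespace UB

variable {Z : Type} [NormedAddCommGroup Z] [NormedSpace ℝ Z] [CompleteSpace Z] {e : ℕ → Z}

/-- small reflection vectors with support `F` -/
def Z0F (h : UB e) (F : Finset ℕ) : Set Z :=
  {g | ∃ φ : Z →L[ℝ] ℝ, RP g φ ∧ (∀ n, n ∈ F ↔ h.co n g ≠ 0) ∧ ∀ n, h.co n g * φ (e n) ∈ Q2}

/-- small reflection vectors: finite support, all angles rational -/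
def Z0 (h : UB e) : Set Z := ⋃ F : Finset ℕ, h.Z0F F

theorem eq_of_same (h : UB e) {g g' : Z} {φ φ' : Z →L[ℝ] ℝ} (hg : RP g φ) (hg' : RP g' φ')
    (F : Finset ℕ) (hF : ∀ n, n ∈ F ↔ h.co n g ≠ 0) (hF' : ∀ n, n ∈ F ↔ h.co n g' ≠ 0)
    (hp : ∀ n ∈ F, h.co n g * φ (e n) = h.co n g' * φ' (e n))
    (hs : ∀ n ∈ F, (0 < h.co n g ↔ 0 < h.co n g')) : g = g' := by
  have e1 : g = ∑ n ∈ F, h.co n g • e n :=
    h.eq_sum_of_finite F fun n hn => by_contra fun h' => hn ((hF n).2 h')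
  have e2 : g' = ∑ n ∈ F, h.co n g' • e n :=
    h.eq_sum_of_finite F fun n hn => by_contra fun h' => hn ((hF' n).2 h')
  have f1 : φ g' = ∑ n ∈ F, h.co n g' * φ (e n) := by
    conv_lhs => rw [e2]
    simp [map_sum]
  have f2 : φ' g = ∑ n ∈ F, h.co n g * φ' (e n) := by
    conv_lhs => rw [e1]
    simp [map_sum]
  have f3 : (1 : ℝ) = ∑ n ∈ F, h.co n g * φ (e n) := by
    rw [← hg.one]
    conv_lhs => rw [e1]
    simp [map_sum]
  have hpos : ∀ n ∈ F, 0 ≤ h.co n g' * φ (e n) ∧ 0 ≤ h.co n g * φ' (e n) := by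
    intro n hn
    have p1 := h.p_pos hg ((hF n).1 hn)
    have p2 := h.p_pos hg' ((hF' n).1 hn)
    have hs' := hs n hn
    rcases lt_or_gt_of_ne ((hF n).1 hn) with hneg | hpos
    · have q1 : ¬ 0 < h.co n g' := fun h' => absurd (hs'.2 h') (not_lt.2 hneg.le)
      have q2 : h.co n g' < 0 := lt_of_le_of_ne (not_lt.1 q1) ((hF' n).1 hn)
      have r1 : φ (e n) < 0 := by
        by_contra hcon; push Not at hcon; nlinarith
      have r2 : φ' (e n) < 0 := by
        by_contra hcon; push Not at hcon; nlinarith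
      constructor <;> nlinarith
    · have q2 : 0 < h.co n g' := hs'.1 hpos
      have r1 : 0 < φ (e n) := by
        by_contra hcon; push Not at hcon; nlinarith
      have r2 : 0 < φ' (e n) := by
        by_contra hcon; push Not at hcon; nlinarith
      constructor <;> positivity
  have hcs : (∑ n ∈ F, h.co n g * φ (e n)) ^ 2 ≤
      (∑ n ∈ F, h.co n g' * φ (e n)) * ∑ n ∈ F, h.co n g * φ' (e n) := by
    refine Finset.sum_sq_le_sum_mul_sum_of_sq_eq_mul F (fun n hn => (hpos n hn).1)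
      (fun n hn => (hpos n hn).2) fun n hn => ?_
    have := hp n hn
    calc (h.co n g * φ (e n)) ^ 2 = (h.co n g * φ (e n)) * (h.co n g * φ (e n)) := by ring
      _ = (h.co n g * φ (e n)) * (h.co n g' * φ' (e n)) := by rw [← this]
      _ = _ := by ring
  rw [← f3, ← f1, ← f2] at hcs
  obtain ⟨-, b1, -, b2⟩ := hg.pair hg'
  have b3 : φ g' * φ' g = 1 := by linarith
  rcases b2 b3 with h5 | h5
  · exact h5.symm
  · exfalso
    obtain ⟨n, hn⟩ := h.exists_co_ne_zero hg.ne_zero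
    have hnF := (hF n).2 hn
    have := hs n hnF
    rw [h5, map_neg] at this
    rcases lt_or_gt_of_ne hn with h6 | h6
    · have := this.2 (by linarith); linarith
    · have := this.1 h6; linarith

theorem countable_Z0F (h : UB e) (F : Finset ℕ) : (h.Z0F F).Countable := by
  classical
  let pw : Z → ℕ → ℝ := fun g n =>
    if hg : ∃ φ : Z →L[ℝ] ℝ, RP g φ then h.co n g * (Classical.choose hg) (e n) else 0
  have hpw : ∀ (g : Z) (φ : Z →L[ℝ] ℝ), RP g φ → ∀ n, pw g n = h.co n g * φ (e n) := by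
    intro g φ hg n
    have hex : ∃ φ : Z →L[ℝ] ℝ, RP g φ := ⟨φ, hg⟩
    simp only [pw, dif_pos hex]
    rw [(Classical.choose_spec hex).unique hg]
  let f : Z → (F → ℝ × Bool) := fun g n => (pw g n, decide (0 < h.co n g))
  refine Set.countable_of_injective_of_countable_image (f := f) ?_ ?_
  · rintro g ⟨φ, hg, hF, hq⟩ g' ⟨φ', hg', hF', hq'⟩ hff
    refine h.eq_of_same hg hg' F hF hF' ?_ ?_
    · intro n hn
      have := congrFun hff ⟨n, hn⟩
      have := congrArg Prod.fst this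
      simp only [f] at this
      rwa [hpw g φ hg, hpw g' φ' hg'] at this
    · intro n hn
      have := congrFun hff ⟨n, hn⟩
      have := congrArg Prod.snd this
      simpa [f] using this
  · refine (Set.countable_univ_pi (s := fun _ : F => Q2 ×ˢ (Set.univ : Set Bool))
      fun _ => countable_Q2.prod (Set.countable_univ)).mono ?_
    rintro _ ⟨g, ⟨φ, hg, hF, hq⟩, rfl⟩ n -
    refine ⟨?_, trivial⟩
    simp only [f]
    rw [hpw g φ hg]
    exact hq n

theorem countable_Z0 (h : UB e) : h.Z0.Countable :=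
  Set.countable_iUnion fun F => h.countable_Z0F F

theorem e_mem_Z0 (h : UB e) (i : ℕ) : e i ∈ h.Z0 := by
  refine Set.mem_iUnion.2 ⟨{i}, h.co i, h.rp i, ?_, ?_⟩
  · intro n
    by_cases hn : n = i
    · subst hn; simp [h.co_self]
    · simp [hn, h.co_ne hn]
  · intro n
    by_cases hn : n = i
    · subst hn; rw [h.co_self, mul_one]; exact one_mem_Q2
    · rw [h.co_ne hn, zero_mul]; exact zero_mem_Q2

theorem type_cases (h : UB e) {g : Z} {φ : Z →L[ℝ] ℝ} (hg : RP g φ) : g ∈ h.Z0 ∨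
    ∃ i j, i ≠ j ∧ h.co i g ≠ 0 ∧ h.co j g ≠ 0 ∧ Full (e i) (e j) (h.co i) (h.co j) := by
  by_cases hfin : {n | h.co n g ≠ 0}.Finite
  · by_cases hq : ∀ n, h.co n g * φ (e n) ∈ Q2
    · left
      refine Set.mem_iUnion.2 ⟨hfin.toFinset, φ, hg, fun n => by simp, hq⟩
    · right
      push Not at hq
      obtain ⟨j, hj⟩ := hq
      have hj0 : h.co j g ≠ 0 := by
        intro h0; rw [h0, zero_mul] at hj; exact hj zero_mem_Q2
      have hex : ∃ n, n ≠ j ∧ h.co n g ≠ 0 := by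
        by_contra hcon
        push Not at hcon
        have e1 := h.eq_sum_of_finite (x := g) {j} fun n hn => hcon n (by simpa using hn)
        rw [Finset.sum_singleton] at e1
        have := ((h.rp j).eq_or_neg_of_dep hg e1).2
        rw [this] at hj
        exact hj one_mem_Q2
      obtain ⟨n, hnj, hn⟩ := hex
      exact ⟨n, j, hnj, hn, hj0, h.full_of_irr_co hg hnj.symm hj hn⟩
  · right
    have hinf : {n | h.co n g ≠ 0}.Infinite := hfin
    obtain ⟨i, hi, j, hj, hij⟩ := hinf.nontrivial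
    exact ⟨i, j, hij, hi, hj, h.full_of_infinite hg hinf hij.symm hj hi⟩

theorem norm_two {a b : Z} {fa fb : Z →L[ℝ] ℝ} (hB : Bi a b fa fb) (hF : Full a b fa fb)
    (s c : ℝ) {w : Z} (h1 : fa w = 0) (h2 : fb w = 0) :
    ‖s • a + c • b + w‖ = ‖Real.sqrt (s ^ 2 + c ^ 2) • a + w‖ := by
  set ρ := Real.sqrt (s ^ 2 + c ^ 2) with hρ
  have hρ2 : ρ ^ 2 = s ^ 2 + c ^ 2 := Real.sq_sqrt (by positivity)
  by_cases h0 : ρ = 0
  · rw [h0] at hρ2
    have hs : s = 0 := by nlinarith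
    have hc : c = 0 := by nlinarith
    rw [h0, hs, hc]; simp
  · obtain ⟨t, ht1, ht2⟩ := circle_param (x := s / ρ) (y := c / ρ) (by
      rw [div_pow, div_pow, ← add_div, hρ2]
      exact div_self (by rw [← hρ2]; positivity))
    have e1 : rot a b fa fb t (ρ • a + w) = s • a + c • b + w := by
      have k1 : s / ρ * ρ = s := by field_simp
      have k2 : c / ρ * ρ = c := by field_simp
      simp only [rot, map_add, map_smul, hB.aa, hB.ba, h1, h2, ht1, ht2, smul_eq_mul]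
      have k3 : (s / ρ - 1) * (ρ * 1 + 0) - c / ρ * (ρ * 0 + 0) = s - ρ := by
        linear_combination k1
      have k4 : c / ρ * (ρ * 1 + 0) + (s / ρ - 1) * (ρ * 0 + 0) = c := by
        linear_combination k2
      rw [k3, k4]
      module
    rw [← e1, hF]

theorem norm_class_finite (h : UB e) (i : ℕ) (c : ℕ → ℝ) (F : Finset ℕ) :
    (∀ n ∈ F, n ≠ i ∧ Full (e i) (e n) (h.co i) (h.co n)) → ∀ (s : ℝ) (w : Z), h.co i w = 0 →
    (∀ n ∈ F, h.co n w = 0) →
    ‖s • e i + ∑ n ∈ F, c n • e n + w‖ = ‖Real.sqrt (s ^ 2 + ∑ n ∈ F, c n ^ 2) • e i + w‖ := by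
  classical
  induction F using Finset.induction_on with
  | empty =>
    intro _ s w hw _
    simp only [Finset.sum_empty, add_zero]
    have e1 := h.norm_sg {i} (s • e i + w)
    rcases le_total 0 s with hs | hs
    · rw [Real.sqrt_sq hs]
    · have e2 : Real.sqrt (s ^ 2) = -s := by rw [Real.sqrt_sq_eq_abs, abs_of_nonpos hs]
      rw [e2, ← e1, sg_eq, pj_single]
      congr 1
      simp only [map_add, map_smul, h.co_self, hw, smul_eq_mul]
      module
  | insert m F hm ih =>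
    intro hF s w hw hwF
    rw [Finset.sum_insert hm, Finset.sum_insert hm]
    obtain ⟨hmi, hfull⟩ := hF m (Finset.mem_insert_self m F)
    have hF' : ∀ n ∈ F, n ≠ i ∧ Full (e i) (e n) (h.co i) (h.co n) :=
      fun n hn => hF n (Finset.mem_insert_of_mem hn)
    have hwi : h.co i (∑ n ∈ F, c n • e n + w) = 0 := by
      rw [map_add, map_sum, hw, add_zero]
      refine Finset.sum_eq_zero fun n hn => ?_
      rw [map_smul, h.co_ne (hF' n hn).1.symm, smul_zero]
    have hwm : h.co m (∑ n ∈ F, c n • e n + w) = 0 := by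
      rw [map_add, map_sum, hwF m (Finset.mem_insert_self m F), add_zero]
      refine Finset.sum_eq_zero fun n hn => ?_
      have : m ≠ n := by rintro rfl; exact hm hn
      rw [map_smul, h.co_ne this, smul_zero]
    have e1 := norm_two (h.bi hmi.symm) hfull s (c m) hwi hwm
    have e2 := ih hF' (Real.sqrt (s ^ 2 + c m ^ 2)) w hw
      (fun n hn => hwF n (Finset.mem_insert_of_mem hn))
    rw [Real.sq_sqrt (by positivity)] at e2
    rw [show s • e i + (c m • e m + ∑ n ∈ F, c n • e n) + w =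
      s • e i + c m • e m + (∑ n ∈ F, c n • e n + w) by abel, e1, ← add_assoc, e2, ← add_assoc]

theorem fin_class (h : UB e) (i : ℕ) {y w : Z} (hy : ∀ n, h.co n y ≠ 0 → h.rel i n)
    (hw : ∀ n, h.rel i n → h.co n w = 0) (N : ℕ) (hN : i < N) :
    ‖∑ n ∈ Finset.range N, h.co n y • e n + w‖ =
      ‖Real.sqrt (∑ n ∈ Finset.range N, h.co n y ^ 2) • e i + w‖ := by
  classical
  set F := (Finset.range N).filter fun n => n ≠ i ∧ h.co n y ≠ 0 with hFdef
  have hiN : i ∈ Finset.range N := Finset.mem_range.2 hN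
  have split : ∀ (M : Type) [AddCommMonoid M] (f : ℕ → M), (∀ n, h.co n y = 0 → f n = 0) →
      ∑ n ∈ Finset.range N, f n = f i + ∑ n ∈ F, f n := by
    intro M _ f hf
    rw [← Finset.add_sum_erase _ _ hiN]
    congr 1
    refine (Finset.sum_subset ?_ ?_).symm
    · intro n hn
      rw [hFdef, Finset.mem_filter] at hn
      exact Finset.mem_erase.2 ⟨hn.2.1, hn.1⟩
    · intro n hn hn'
      rw [Finset.mem_erase] at hn
      rw [hFdef, Finset.mem_filter] at hn'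
      refine hf n ?_
      by_contra h0
      exact hn' ⟨hn.2, hn.1, h0⟩
  rw [split Z (fun n => h.co n y • e n) (fun n hn => by simp [hn]),
    split ℝ (fun n => h.co n y ^ 2) (fun n hn => by simp [hn])]
  have hFr : ∀ n ∈ F, n ≠ i ∧ h.rel i n := by
    intro n hn
    rw [hFdef, Finset.mem_filter] at hn
    exact ⟨hn.2.1, hy n hn.2.2⟩
  refine h.norm_class_finite i (fun n => h.co n y) F ?_ (h.co i y) w (hw i (h.rel_refl i)) ?_
  · intro n hn
    exact ⟨(hFr n hn).1, (hFr n hn).2.resolve_left (hFr n hn).1.symm⟩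
  · intro n hn
    exact hw n (hFr n hn).2

theorem tendsto_sqrt (h : UB e) (i : ℕ) {y : Z} (hy : ∀ n, h.co n y ≠ 0 → h.rel i n) :
    Tendsto (fun N => Real.sqrt (∑ n ∈ Finset.range N, h.co n y ^ 2)) atTop (𝓝 ‖y‖) := by
  refine (h.tendsto_sum y).norm.congr' ?_
  filter_upwards [eventually_gt_atTop i] with N hN
  have := h.fin_class i hy (w := 0) (fun n _ => map_zero _) N hN
  rw [add_zero, add_zero, norm_smul, h.nrm, mul_one, Real.norm_of_nonneg (Real.sqrt_nonneg _)]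
    at this
  exact this

theorem norm_class (h : UB e) (i : ℕ) {y w : Z} (hy : ∀ n, h.co n y ≠ 0 → h.rel i n)
    (hw : ∀ n, h.rel i n → h.co n w = 0) : ‖y + w‖ = ‖‖y‖ • e i + w‖ := by
  have h1 : Tendsto (fun N => ‖∑ n ∈ Finset.range N, h.co n y • e n + w‖) atTop (𝓝 ‖y + w‖) :=
    ((h.tendsto_sum y).add_const w).norm
  have h2 : Tendsto (fun N => ‖Real.sqrt (∑ n ∈ Finset.range N, h.co n y ^ 2) • e i + w‖) atTop
      (𝓝 ‖‖y‖ • e i + w‖) :=
    (((h.tendsto_sqrt i hy).smul_const (e i)).add_const w).norm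
  refine tendsto_nhds_unique (h1.congr' ?_) h2
  filter_upwards [eventually_gt_atTop i] with N hN
  exact h.fin_class i hy hw N hN

theorem tendsto_sq (h : UB e) (i : ℕ) {y : Z} (hy : ∀ n, h.co n y ≠ 0 → h.rel i n) :
    Tendsto (fun N => ∑ n ∈ Finset.range N, h.co n y ^ 2) atTop (𝓝 (‖y‖ ^ 2)) := by
  have := (h.tendsto_sqrt i hy).pow 2
  refine this.congr fun N => ?_
  exact Real.sq_sqrt (Finset.sum_nonneg fun n _ => sq_nonneg _)

/-- two orthogonal reflections in one Hilbert component -/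
theorem norm_same_class (h : UB e) (i : ℕ) {g₀ g₁ : Z} {φ₀ φ₁ : Z →L[ℝ] ℝ} (hg₀ : RP g₀ φ₀)
    (hg₁ : RP g₁ φ₁) (h10 : φ₁ g₀ = 0) (s₀ : ∀ n, h.co n g₀ ≠ 0 → h.rel i n)
    (s₁ : ∀ n, h.co n g₁ ≠ 0 → h.rel i n) (α β : ℝ) :
    ‖α • g₀ + β • g₁‖ = Real.sqrt (α ^ 2 + β ^ 2) := by
  have e1 : ‖α • g₀ - β • g₁‖ = ‖α • g₀ + β • g₁‖ := by
    rw [← hg₁.refl (α • g₀ + β • g₁)]
    congr 1
    simp only [map_add, map_smul, h10, hg₁.one, smul_eq_mul]
    module
  have hsup : ∀ c d : ℝ, ∀ n, h.co n (c • g₀ + d • g₁) ≠ 0 → h.rel i n := by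
    intro c d n hn
    by_contra hcon
    have z0 : h.co n g₀ = 0 := by_contra fun h' => hcon (s₀ n h')
    have z1 : h.co n g₁ = 0 := by_contra fun h' => hcon (s₁ n h')
    exact hn (by simp [z0, z1])
  have t1 := h.tendsto_sq i (hsup α β)
  have t2 := h.tendsto_sq i (hsup α (-β))
  have t3 := h.tendsto_sq i s₀
  have t4 := h.tendsto_sq i s₁
  have e2 : α • g₀ + (-β) • g₁ = α • g₀ - β • g₁ := by module
  have t5 := t1.add t2
  have t6 := (t3.const_mul (2 * α ^ 2)).add (t4.const_mul (2 * β ^ 2))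
  have e3 : (fun N => ∑ n ∈ Finset.range N, h.co n (α • g₀ + β • g₁) ^ 2 +
      ∑ n ∈ Finset.range N, h.co n (α • g₀ + (-β) • g₁) ^ 2) = fun N =>
      2 * α ^ 2 * ∑ n ∈ Finset.range N, h.co n g₀ ^ 2 +
      2 * β ^ 2 * ∑ n ∈ Finset.range N, h.co n g₁ ^ 2 := by
    funext N
    rw [Finset.mul_sum, Finset.mul_sum, ← Finset.sum_add_distrib, ← Finset.sum_add_distrib]
    refine Finset.sum_congr rfl fun n _ => ?_
    simp only [map_add, map_smul, smul_eq_mul]
    ring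
  rw [e3] at t5
  have e4 := tendsto_nhds_unique t5 t6
  rw [e2, e1, hg₀.nrm, hg₁.nrm] at e4
  rw [← Real.sqrt_sq (norm_nonneg (α • g₀ + β • g₁))]
  congr 1
  linarith

/-- the countable set of values -/
def V (h : UB e) (α β : ℝ) : Set ℝ :=
  ((fun z : Z × Z => ‖α • z.1 + β • z.2‖) '' (h.Z0 ×ˢ h.Z0)) ∪ {Real.sqrt (α ^ 2 + β ^ 2)}

theorem countable_V (h : UB e) (α β : ℝ) : (h.V α β).Countable :=
  ((h.countable_Z0.prod h.countable_Z0).image _).union (Set.countable_singleton _)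

theorem mem_V_symm (h : UB e) {α β t : ℝ} (ht : t ∈ h.V α β) : t ∈ h.V β α := by
  rcases ht with ⟨⟨z0, z1⟩, ⟨h0, h1⟩, rfl⟩ | ht
  · left
    exact ⟨(z1, z0), ⟨h1, h0⟩, by simp only; rw [add_comm]⟩
  · right
    rw [Set.mem_singleton_iff] at ht ⊢
    rw [ht, add_comm]

theorem norm_sign (h : UB e) (i : ℕ) (α : ℝ) {w : Z} (hw : h.co i w = 0) :
    ‖|α| • e i + w‖ = ‖α • e i + w‖ := by
  rcases le_total 0 α with hα | hα
  · rw [abs_of_nonneg hα]
  · rw [abs_of_nonpos hα, ← h.norm_sg {i} (α • e i + w), sg_eq, pj_single]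
    congr 1
    simp only [map_add, map_smul, h.co_self, hw, smul_eq_mul]
    module

theorem big_any (h : UB e) {g₀ g₁ : Z} {φ₀ φ₁ : Z →L[ℝ] ℝ} (hg₀ : RP g₀ φ₀)
    (hg₁ : RP g₁ φ₁) (h10 : φ₁ g₀ = 0)
    (hbig : ∃ i j, i ≠ j ∧ h.co i g₀ ≠ 0 ∧ h.co j g₀ ≠ 0 ∧ Full (e i) (e j) (h.co i) (h.co j))
    (α β : ℝ) : ‖α • g₀ + β • g₁‖ ∈ h.V α β := by
  obtain ⟨i₀, j₀, hij, hi₀, hj₀, hF⟩ := hbig
  have s₀ : ∀ n, h.co n g₀ ≠ 0 → h.rel i₀ n := fun n hn =>
    h.rel_symm (h.rel_of_meet hg₀ hij hF hj₀ hn)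
  by_cases hmeet : ∃ l, h.rel i₀ l ∧ h.co l g₁ ≠ 0
  · obtain ⟨l, hl1, hl2⟩ := hmeet
    -- an index different from `l` in the class
    have hex : ∃ i, i ≠ l ∧ h.rel i₀ i ∧ Full (e i) (e l) (h.co i) (h.co l) := by
      by_cases hl : l = i₀
      · refine ⟨j₀, ?_, Or.inr hF, ?_⟩
        · rw [hl]; exact hij.symm
        · rw [hl]; exact hF.swap
      · exact ⟨i₀, fun h' => hl h'.symm, h.rel_refl _, hl1.resolve_left fun h' => hl h'.symm⟩
    obtain ⟨i, hil, hi1, hi2⟩ := hex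
    have s₁ : ∀ n, h.co n g₁ ≠ 0 → h.rel i₀ n := fun n hn =>
      h.rel_trans hi1 (h.rel_symm (h.rel_of_meet hg₁ hil hi2 hl2 hn))
    right
    exact h.norm_same_class i₀ hg₀ hg₁ h10 s₀ s₁ α β
  · push Not at hmeet
    have e1 : ‖α • g₀ + β • g₁‖ = ‖α • e i₀ + β • g₁‖ := by
      have := h.norm_class i₀ (y := α • g₀) (w := β • g₁)
        (fun n hn => s₀ n fun h' => hn (by simp [h'])) (fun n hn => by simp [hmeet n hn])
      rw [this, norm_smul, hg₀.nrm, mul_one, Real.norm_eq_abs]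
      exact h.norm_sign i₀ α (by simp [hmeet i₀ (h.rel_refl _)])
    rcases h.type_cases hg₁ with hsmall | ⟨i₁, j₁, hij₁, hi₁, hj₁, hF₁⟩
    · left
      exact ⟨(e i₀, g₁), ⟨h.e_mem_Z0 i₀, hsmall⟩, e1.symm⟩
    · left
      refine ⟨(e i₀, e i₁), ⟨h.e_mem_Z0 i₀, h.e_mem_Z0 i₁⟩, ?_⟩
      have s₁ : ∀ n, h.co n g₁ ≠ 0 → h.rel i₁ n := fun n hn =>
        h.rel_symm (h.rel_of_meet hg₁ hij₁ hF₁ hj₁ hn)
      have hno : ∀ n, h.rel i₁ n → n ≠ i₀ := by
        rintro n hn rfl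
        exact hi₁ (hmeet i₁ (h.rel_symm hn))
      have hne : i₁ ≠ i₀ := hno i₁ (h.rel_refl _)
      have e2 := h.norm_class i₁ (y := β • g₁) (w := α • e i₀)
        (fun n hn => s₁ n fun h' => hn (by simp [h']))
        (fun n hn => by simp [h.co_ne (hno n hn)])
      rw [norm_smul, hg₁.nrm, mul_one, Real.norm_eq_abs,
        h.norm_sign i₁ β (by simp [h.co_ne hne])] at e2
      simp only
      rw [e1, add_comm (α • e i₀) (β • g₁), e2, add_comm]

theorem mem_V (h : UB e) {g₀ g₁ : Z} {φ₀ φ₁ : Z →L[ℝ] ℝ} (hg₀ : RP g₀ φ₀)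
    (hg₁ : RP g₁ φ₁) (h01 : φ₀ g₁ = 0) (h10 : φ₁ g₀ = 0) (α β : ℝ) :
    ‖α • g₀ + β • g₁‖ ∈ h.V α β := by
  rcases h.type_cases hg₀ with hs₀ | hb₀
  · rcases h.type_cases hg₁ with hs₁ | hb₁
    · left
      exact ⟨(g₀, g₁), ⟨hs₀, hs₁⟩, rfl⟩
    · rw [add_comm]
      exact h.mem_V_symm (h.big_any hg₁ hg₀ h01 hb₁ β α)
  · exact h.big_any hg₀ hg₁ h10 hb₀ α β

/-- **KEY**: the norms of the combinations of commuting pairs of reflections are countably many. -/
theorem key (h : UB e) (α β : ℝ) : (pairVals Z α β).Countable := by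
  refine (h.countable_V α β).mono ?_
  rintro t ⟨g₀, g₁, φ₀, φ₁, hg₀, hg₁, h01, h10, rfl⟩
  exact h.mem_V hg₀ hg₁ h01 h10 α β

end UB
end Pool.Agent.H83.Blk
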