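import Pool.Agent.H83.Blk.Small
import Pool.Agent.H83.Blk.Val
import Pool.Agent.H83.Blk.Stmt
import Pool.Agent.H44.BH.Bohn

set_option autoImplicit false
open Filter Topology
open scoped ENNReal ZeroAtInfty

namespace Pool.Agent.H83.Blk

open Pool.Agent.H42.BH

theorem C0orLq.map {X Y : Type} [NormedAddCommGroup X] [NormedSpace ℝ X] [NormedAddCommGroup Y]
    [NormedSpace ℝ Y] (T : X ≃ₗᵢ[ℝ] Y) (h : C0orLq Y) : C0orLq X := by
  rcases h with ⟨⟨S⟩⟩ | ⟨q, hq, hq', ⟨S⟩⟩
  · exact Or.inl ⟨T.trans S⟩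
  · exact Or.inr ⟨q, hq, hq', ⟨T.trans S⟩⟩

theorem dichotomy {X : Type} [NormedAddCommGroup X] [NormedSpace ℝ X] [CompleteSpace X]
    {e : ℕ → X} (h : UB e) : C0orLq X ∨
    ∃ F : ℝ → (ℕ → ℕ) × (ℕ → ℝ), (∀ t, IsNBlk e (F t).1 (F t).2 ∧ Tail (F t).1) ∧
      ∀ s t, s ≠ t → IsEmpty (blkSpan e (F s).1 (F s).2 ≃ₗᵢ[ℝ] blkSpan e (F t).1 (F t).2) := by
  rcases reps e with hF | ⟨C, hC, hmem, hrep⟩
  · exact Or.inr hF
  left
  have hcomp : ∀ p b, CompleteSpace (blkSpan e p b) := fun p b =>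
    (Submodule.isClosed_topologicalClosure _).completeSpace_coe
  have hs : Small e C := by
    refine ⟨h, hC, hmem, ?_, hrep, ?_⟩
    · intro w hw α β
      have := hcomp w.1 w.2
      exact (ub_blkV h (hmem w hw)).key α β
    · intro p b hb
      have := hcomp p b
      have hu := ub_blkV h hb
      exact ⟨hu.co 0, hu.co 1, hu.rp 0, hu.rp 1, hu.co_ne zero_ne_one, hu.co_ne one_ne_zero⟩
  exact Pool.Agent.H44.BH.bohn h fun m a b ha hb => hs.blocks m a b ha hb

section cl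

variable {W W' : Type} [NormedAddCommGroup W] [NormedSpace ℝ W] [NormedAddCommGroup W']
  [NormedSpace ℝ W']

/-- closed span of a sequence -/
def cl (u : ℕ → W) : Submodule ℝ W := (Submodule.span ℝ (Set.range u)).topologicalClosure

/-- the sequence in its closed span -/
def clV (u : ℕ → W) (k : ℕ) : cl u :=
  ⟨u k, Submodule.le_topologicalClosure _ (Submodule.subset_span ⟨k, rfl⟩)⟩

theorem coe_lc_clV (u : ℕ → W) (a : ℕ →₀ ℝ) :
    ((Finsupp.linearCombination ℝ (clV u) a : cl u) : W) = Finsupp.linearCombination ℝ u a := by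
  have h1 := Finsupp.apply_linearCombination ℝ (cl u).subtype (clV u) a
  rw [Submodule.subtype_apply] at h1
  rw [h1]
  rfl

theorem dense_clV (u : ℕ → W) : DenseRange (Finsupp.linearCombination ℝ (clV u)) := by
  rw [DenseRange, Subtype.dense_iff]
  intro x hx
  have h3 : x ∈ closure ((Submodule.span ℝ (Set.range u) : Submodule ℝ W) : Set W) := by
    rw [← Submodule.topologicalClosure_coe]; exact hx
  refine closure_mono ?_ h3
  intro y hy
  rw [SetLike.mem_coe, Finsupp.mem_span_range_iff_exists_finsupp] at hy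
  obtain ⟨c, hc⟩ := hy
  refine ⟨Finsupp.linearCombination ℝ (clV u) c, ⟨c, rfl⟩, ?_⟩
  rw [coe_lc_clV, Finsupp.linearCombination_apply, hc]

theorem clIso [CompleteSpace W] [CompleteSpace W'] (u : ℕ → W) (u' : ℕ → W')
    (h : ∀ a : ℕ →₀ ℝ, ‖Finsupp.linearCombination ℝ u' a‖ = ‖Finsupp.linearCombination ℝ u a‖) :
    Nonempty (cl u ≃ₗᵢ[ℝ] cl u') := by
  have c1 : CompleteSpace (cl u) := (Submodule.isClosed_topologicalClosure _).completeSpace_coe
  have c2 : CompleteSpace (cl u') := (Submodule.isClosed_topologicalClosure _).completeSpace_coe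
  refine ⟨LinearEquiv.extendOfIsometry (LinearEquiv.refl ℝ (ℕ →₀ ℝ))
    (Finsupp.linearCombination ℝ (clV u)) (Finsupp.linearCombination ℝ (clV u'))
    (dense_clV u) (dense_clV u') fun a => ?_⟩
  rw [LinearEquiv.refl_apply]
  change ‖((Finsupp.linearCombination ℝ (clV u') a : cl u') : W')‖ =
    ‖((Finsupp.linearCombination ℝ (clV u) a : cl u) : W)‖
  rw [coe_lc_clV, coe_lc_clV, h]

theorem ub_clV {u : ℕ → W} (h1 : ∀ k, ‖u k‖ = 1)
    (h2 : ∀ (ε a : ℕ → ℝ) (N : ℕ), (∀ n, ε n = 1 ∨ ε n = -1) →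
      ‖∑ n ∈ Finset.range N, (ε n * a n) • u n‖ = ‖∑ n ∈ Finset.range N, a n • u n‖) :
    UB (clV u) := by
  refine ⟨h1, ?_, dense_clV u⟩
  intro ε hε a
  have e1 : ((Finsupp.linearCombination ℝ (fun n => ε n • clV u n) a : cl u) : W) =
      Finsupp.linearCombination ℝ (fun n => ε n • u n) a := by
    have h1 := Finsupp.apply_linearCombination ℝ (cl u).subtype (fun n => ε n • clV u n) a
    rw [Submodule.subtype_apply] at h1
    rw [h1]
    rfl
  change ‖((Finsupp.linearCombination ℝ (fun n => ε n • clV u n) a : cl u) : W)‖ =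
    ‖((Finsupp.linearCombination ℝ (clV u) a : cl u) : W)‖
  rw [e1, coe_lc_clV]
  set N := a.support.sup id + 1 with hN
  have hsup : a.support ⊆ Finset.range N := by
    intro i hi
    have := Finset.le_sup (f := id) hi
    simp only [id] at this
    rw [Finset.mem_range]; omega
  rw [Finsupp.linearCombination_apply, Finsupp.linearCombination_apply,
    Finsupp.sum_of_support_subset a hsup (fun n r => r • ε n • u n) (fun n _ => zero_smul _ _),
    Finsupp.sum_of_support_subset a hsup (fun n r => r • u n) (fun n _ => zero_smul _ _),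
    ← h2 ε a N hε]
  congr 1
  refine Finset.sum_congr rfl fun n _ => ?_
  rw [smul_smul, mul_comm]

end cl

theorem blkSpan_eq {X : Type} [NormedAddCommGroup X] [NormedSpace ℝ X] (e : ℕ → X) (p : ℕ → ℕ)
    (b : ℕ → ℝ) : blkSpan e p b = cl (blk e p b) := rfl

variable {X : Type} [NormedAddCommGroup X] [NormedSpace ℝ X]

theorem sum_blocks {p : ℕ → ℕ} (hp : StrictMono p) (f : ℕ → X) {l r : ℕ} (hlr : l ≤ r) :
    ∑ j ∈ Finset.Ico l r, ∑ n ∈ Finset.Ico (p j) (p (j + 1)), f n =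
      ∑ n ∈ Finset.Ico (p l) (p r), f n := by
  induction r, hlr using Nat.le_induction with
  | base => simp
  | succ r hr ih =>
    rw [Finset.sum_Ico_succ_top hr, ih,
      Finset.sum_Ico_consecutive _ (hp.monotone hr) (hp.monotone (Nat.le_succ r))]

/-- a block of blocks is a block -/
theorem blk_blk (e : ℕ → X) {p₀ : ℕ → ℕ} (b₀ : ℕ → ℝ) (hp₀ : StrictMono p₀) {p : ℕ → ℕ}
    (b : ℕ → ℝ) (hp : StrictMono p) (k : ℕ) :
    blk (blk e p₀ b₀) p b k =
      blk e (fun j => p₀ (p j)) (fun n => b (blkIdx p₀ n) * b₀ n) k := by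
  unfold blk
  rw [← sum_blocks hp₀ _ (hp.monotone (Nat.le_succ k))]
  refine Finset.sum_congr rfl fun j _ => ?_
  rw [Finset.smul_sum]
  refine Finset.sum_congr rfl fun n hn => ?_
  change b j • b₀ n • e n = (b (blkIdx p₀ n) * b₀ n) • e n
  rw [blkIdx_eq hp₀ hn, smul_smul]

theorem coe_blk_clV (e : ℕ → X) {p₀ : ℕ → ℕ} (b₀ : ℕ → ℝ) (hp₀ : StrictMono p₀) {p : ℕ → ℕ}
    (b : ℕ → ℝ) (hp : StrictMono p) (k : ℕ) :
    ((blk (clV (blk e p₀ b₀)) p b k : cl (blk e p₀ b₀)) : X) =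
      blk e (fun j => p₀ (p j)) (fun n => b (blkIdx p₀ n) * b₀ n) k := by
  rw [← blk_blk e b₀ hp₀ b hp k]
  simp only [blk, Submodule.coe_sum, Submodule.coe_smul]
  rfl

/-- the dichotomy for a 1-unconditional block sequence -/
theorem dichotomy_blk [CompleteSpace X] {e : ℕ → X} {p₀ : ℕ → ℕ} {b₀ : ℕ → ℝ}
    (h₀ : IsNBlk e p₀ b₀) (hu : OneUnc (blk e p₀ b₀)) : C0orLq (blkSpan e p₀ b₀) ∨
    ∃ F : ℝ → (ℕ → ℕ) × (ℕ → ℝ),
      (∀ t, IsNBlk e (F t).1 (F t).2 ∧ blkSpan e (F t).1 (F t).2 ≤ blkSpan e p₀ b₀ ∧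
        ∃ m, ∀ k, m ≤ k → blk e p₀ b₀ k ∈ blkSpan e (F t).1 (F t).2) ∧
      ∀ s t, s ≠ t → IsEmpty (blkSpan e (F s).1 (F s).2 ≃ₗᵢ[ℝ] blkSpan e (F t).1 (F t).2) := by
  set u := blk e p₀ b₀ with hudef
  have hub : UB (clV u) := ub_clV h₀.2 hu
  have c1 : CompleteSpace (cl u) := (Submodule.isClosed_topologicalClosure _).completeSpace_coe
  rcases dichotomy hub with h1 | ⟨F, hF1, hF2⟩
  · exact Or.inl h1
  right
  have hiso : ∀ t, Nonempty (blkSpan (clV u) (F t).1 (F t).2 ≃ₗᵢ[ℝ]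
      blkSpan e (fun j => p₀ ((F t).1 j)) (fun n => (F t).2 (blkIdx p₀ n) * b₀ n)) := by
    intro t
    refine clIso (blk (clV u) (F t).1 (F t).2) _ fun a => ?_
    have h1 := Finsupp.apply_linearCombination ℝ (cl u).subtype (blk (clV u) (F t).1 (F t).2) a
    rw [Submodule.subtype_apply] at h1
    have h2 : ‖Finsupp.linearCombination ℝ (blk (clV u) (F t).1 (F t).2) a‖ =
      ‖((Finsupp.linearCombination ℝ (blk (clV u) (F t).1 (F t).2) a : cl u) : X)‖ := rfl
    have h3 : (⇑(cl u).subtype ∘ blk (clV u) (F t).1 (F t).2) =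
        blk e (fun j => p₀ ((F t).1 j)) (fun n => (F t).2 (blkIdx p₀ n) * b₀ n) :=
      funext fun k => coe_blk_clV e b₀ h₀.1 _ (hF1 t).1.1 k
    rw [h2, h1, h3]
  refine ⟨fun t => (fun j => p₀ ((F t).1 j), fun n => (F t).2 (blkIdx p₀ n) * b₀ n), ?_, ?_⟩
  · intro t
    obtain ⟨hb, hp0, hp1⟩ := hF1 t
    have hcoe := coe_blk_clV e b₀ h₀.1 (F t).2 hb.1
    refine ⟨⟨h₀.1.comp hb.1, fun k => ?_⟩, ?_, (F t).1 2, ?_⟩
    · rw [← hcoe k]
      exact hb.2 k
    · refine Submodule.topologicalClosure_minimal _ ?_ (Submodule.isClosed_topologicalClosure _)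
      rw [Submodule.span_le]
      rintro _ ⟨k, rfl⟩
      rw [← hcoe k]
      exact (blk (clV u) (F t).1 (F t).2 k : cl u).2
    · intro j hj
      have hq : ∀ i, (F t).1 (2 + i) = (F t).1 2 + i := by
        intro i
        induction i with
        | zero => rfl
        | succ i ih => rw [← add_assoc, hp1 (2 + i) (by omega), ih]; ring
      obtain ⟨i, hi⟩ := Nat.exists_eq_add_of_le hj
      have hji : j = (F t).1 (2 + i) := by rw [hq, hi]
      have e1 : blk (clV u) (F t).1 (F t).2 (2 + i) = (F t).2 j • clV u j := by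
        unfold blk
        rw [hp1 (2 + i) (by omega), ← hji]
        simp
      have e2 : (F t).2 j ≠ 0 := by
        intro h0
        have := hb.2 (2 + i)
        rw [e1, h0, zero_smul, norm_zero] at this
        exact zero_ne_one this
      have e3 : u j = ((F t).2 j)⁻¹ • blk e (fun j => p₀ ((F t).1 j))
          (fun n => (F t).2 (blkIdx p₀ n) * b₀ n) (2 + i) := by
        rw [← hcoe (2 + i)]
        change u j = ((F t).2 j)⁻¹ • ((blk (clV u) (F t).1 (F t).2 (2 + i) : cl u) : X)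
        rw [e1]
        change u j = ((F t).2 j)⁻¹ • (F t).2 j • u j
        rw [smul_smul, inv_mul_cancel₀ e2, one_smul]
      rw [e3]
      exact Submodule.smul_mem _ _ (Submodule.le_topologicalClosure _
        (Submodule.subset_span ⟨2 + i, rfl⟩))
  · intro s t hst
    obtain ⟨Rs⟩ := hiso s
    obtain ⟨Rt⟩ := hiso t
    exact ⟨fun T => (hF2 s t hst).false ((Rs.trans T).trans Rt.symm)⟩

end Pool.Agent.H83.Blk
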