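import Pool.Agent.H83.Blk.Refl

set_option autoImplicit false
open Filter Topology

namespace Pool.Agent.H83.Blk

variable {Z : Type} [NormedAddCommGroup Z] [NormedSpace ℝ Z]

theorem rot_swap (a b : Z) (fa fb : Z →L[ℝ] ℝ) (t : ℝ) (x : Z) :
    rot b a fb fa t x = rot a b fa fb (-t) x := by
  simp only [rot, Real.cos_neg, Real.sin_neg]
  module

theorem Full.swap {a b : Z} {fa fb : Z →L[ℝ] ℝ} (h : Full a b fa fb) : Full b a fb fa := by
  intro t x
  rw [rot_swap, h]

theorem Bi.swap {a b : Z} {fa fb : Z →L[ℝ] ℝ} (h : Bi a b fa fb) : Bi b a fb fa :=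
  ⟨h.bb, h.aa, h.ba, h.ab⟩

/-- the rotation as a linear isometric equivalence -/
noncomputable def rotE {a b : Z} {fa fb : Z →L[ℝ] ℝ} (hB : Bi a b fa fb) (hF : Full a b fa fb)
    (t : ℝ) : Z ≃ₗᵢ[ℝ] Z where
  toFun := rot a b fa fb t
  invFun := rot a b fa fb (-t)
  map_add' := by intro x y; simp only [rot, map_add]; module
  map_smul' := by intro c x; simp only [rot, map_smul, smul_eq_mul, RingHom.id_apply]; module
  left_inv := by intro x; rw [rot_rot hB, neg_add_cancel, rot_zero]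
  right_inv := by intro x; rw [rot_rot hB, add_neg_cancel, rot_zero]
  norm_map' := by intro x; exact hF t x

theorem rotE_apply {a b : Z} {fa fb : Z →L[ℝ] ℝ} (hB : Bi a b fa fb) (hF : Full a b fa fb)
    (t : ℝ) (x : Z) : rotE hB hF t x = rot a b fa fb t x := rfl

theorem rotE_symm_apply {a b : Z} {fa fb : Z →L[ℝ] ℝ} (hB : Bi a b fa fb) (hF : Full a b fa fb)
    (t : ℝ) (x : Z) : (rotE hB hF t).symm x = rot a b fa fb (-t) x := rfl

theorem RP.map_rot {a b h : Z} {fa fb χ : Z →L[ℝ] ℝ} (hB : Bi a b fa fb) (hF : Full a b fa fb)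
    (hh : RP h χ) (t : ℝ) : ∃ χ' : Z →L[ℝ] ℝ, (∀ x, χ' x = χ (rot a b fa fb (-t) x)) ∧
      RP (rot a b fa fb t h) χ' :=
  ⟨_, fun _ => rfl, hh.map (rotE hB hF t)⟩

/-- a reflection in a plane is `rfl'` -/
theorem norm_rfl_of_rp {a b g : Z} {fa fb φ : Z →L[ℝ] ℝ} (hg : RP g φ) {η r : ℝ} (hr : r ≠ 0)
    (h1 : g = r • (Real.cos η • a + Real.sin η • b))
    (h2 : ∀ x, φ x = r⁻¹ * (Real.cos η * fa x + Real.sin η * fb x)) (x : Z) :
    ‖rfl' a b fa fb η x‖ = ‖x‖ := by
  rw [← hg.refl x]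
  congr 1
  rw [rfl', h2 x, h1, smul_smul]
  congr 2
  field_simp

theorem norm_rfl_zero {a b : Z} {fa fb : Z →L[ℝ] ℝ} (ha : RP a fa) (x : Z) :
    ‖rfl' a b fa fb 0 x‖ = ‖x‖ :=
  norm_rfl_of_rp ha (r := 1) one_ne_zero (by simp) (by simp) x

/-- generation of new rotation planes -/
theorem gen {a b h : Z} {fa fb χ : Z →L[ℝ] ℝ} (hB : Bi a b fa fb) (hF : Full a b fa fb)
    (hh : RP h χ) (h1 : χ a = 0) (h2 : fa h = 0) (hP : 0 < fb h * χ b) :
    ∃ r : ℝ, r ≠ 0 ∧ Full h (r • a) χ (r⁻¹ • fa) := by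
  set γ := fb h with hγ
  set δ := χ b with hδ
  set P := γ * δ with hPdef
  have hγ0 : γ ≠ 0 := by rintro h0; rw [hPdef, h0, zero_mul] at hP; exact lt_irrefl _ hP
  have hδ0 : δ ≠ 0 := by rintro h0; rw [hPdef, h0, mul_zero] at hP; exact lt_irrefl _ hP
  have hsP : 0 < Real.sqrt P := Real.sqrt_pos.2 hP
  have hsP2 : Real.sqrt P * Real.sqrt P = P := Real.mul_self_sqrt hP.le
  refine ⟨-(γ / Real.sqrt P), by
    rw [neg_ne_zero]; exact div_ne_zero hγ0 hsP.ne', ?_⟩
  have hinv : (-(γ / Real.sqrt P))⁻¹ = -(δ / Real.sqrt P) := by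
    rw [inv_neg, inv_div]
    congr 1
    rw [div_eq_div_iff hγ0 hsP.ne', hsP2, hPdef]; ring
  rw [hinv]
  -- the parametrised planes
  let S : ℝ → ℝ := fun s => Real.sin s
  let C : ℝ → ℝ := fun s => Real.cos s
  let c : ℝ → ℝ := fun s => 1 - 2 * P * Real.sin s ^ 2
  let D : ℝ → ℝ := fun s => Real.sqrt (2 * P * (1 + c s))
  let bs : ℝ → Z := fun s => (D s)⁻¹ • ((2 * P * Real.sin s) • h - (2 * γ * Real.cos s) • a -
    (2 * γ * Real.sin s) • b)
  let fbs : ℝ → Z →L[ℝ] ℝ := fun s => (D s)⁻¹ • ((2 * P * Real.sin s) • χ -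
    (2 * δ * Real.cos s) • fa - (2 * δ * Real.sin s) • fb)
  have hev : ∀ᶠ s : ℝ in 𝓝[>] 0, 0 < s ∧ s < Real.pi ∧ P * Real.sin s ^ 2 < 1 := by
    have e1 : ∀ᶠ s : ℝ in 𝓝[>] 0, 0 < s := self_mem_nhdsWithin
    have e2 : ∀ᶠ s : ℝ in 𝓝[>] 0, s < Real.pi :=
      nhdsWithin_le_nhds (Iio_mem_nhds Real.pi_pos)
    have e3 : ∀ᶠ s : ℝ in 𝓝[>] 0, P * Real.sin s ^ 2 < 1 := by
      have hc : Continuous fun s : ℝ => P * Real.sin s ^ 2 := by fun_prop
      have := hc.tendsto 0
      simp only [Real.sin_zero] at this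
      refine nhdsWithin_le_nhds (this.eventually_lt_const (by norm_num))
    filter_upwards [e1, e2, e3] with s h1 h2 h3 using ⟨h1, h2, h3⟩
  have hD2 : ∀ s, P * Real.sin s ^ 2 < 1 → 0 < D s ∧ D s * D s = 4 * P * (1 - P * Real.sin s ^ 2) := by
    intro s hs
    have e0 : 2 * P * (1 + c s) = 4 * P * (1 - P * Real.sin s ^ 2) := by simp only [c]; ring
    have e1 : 0 < 2 * P * (1 + c s) := by
      rw [e0]; have : 0 < 1 - P * Real.sin s ^ 2 := by linarith
      positivity
    exact ⟨Real.sqrt_pos.2 e1, by rw [Real.mul_self_sqrt e1.le, e0]⟩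
  have hBi : ∀ s, P * Real.sin s ^ 2 < 1 → Bi h (bs s) χ (fbs s) := by
    intro s hs
    obtain ⟨hD0, hDD⟩ := hD2 s hs
    have hcs := Real.sin_sq_add_cos_sq s
    refine ⟨hh.one, ?_, ?_, ?_⟩
    · simp only [fbs, bs, ContinuousLinearMap.smul_apply, ContinuousLinearMap.sub_apply, map_smul,
        map_sub, hh.one, h1, h2, hB.aa, hB.ab, hB.ba, hB.bb, ← hγ, ← hδ, smul_eq_mul]
      have e2 : (D s)⁻¹ * (D s)⁻¹ * (4 * P * (1 - P * Real.sin s ^ 2)) = 1 := by
        rw [← hDD]; field_simp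
      have e3 : (4 * P * (1 - P * Real.sin s ^ 2)) =
          2 * P * Real.sin s * (2 * P * Real.sin s - 2 * γ * Real.cos s * 0 -
            2 * γ * Real.sin s * δ) - 2 * δ * Real.cos s * (2 * P * Real.sin s * 0 -
            2 * γ * Real.cos s * 1 - 2 * γ * Real.sin s * 0) -
            2 * δ * Real.sin s * (2 * P * Real.sin s * γ - 2 * γ * Real.cos s * 0 -
            2 * γ * Real.sin s * 1) := by
        rw [hPdef]
        linear_combination (-(4 * γ * δ)) * hcs
      rw [e3] at e2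
      linear_combination e2
    · simp only [bs, map_smul, map_sub, hh.one, h1, ← hδ, smul_eq_mul, hPdef]
      ring
    · simp only [fbs, ContinuousLinearMap.smul_apply, ContinuousLinearMap.sub_apply, hh.one, h2,
        ← hγ, smul_eq_mul, hPdef]
      ring
  refine full_limit (l := 𝓝[>] (0 : ℝ)) bs fbs (fun s => 2 * (Real.arccos (c s) - 0)) ?_ ?_ ?_ ?_
    ?_ ?_
  · filter_upwards [hev] with s hs using hBi s hs.2.2
  · filter_upwards [hev] with s hs
    obtain ⟨hs0, hspi, hs1⟩ := hs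
    obtain ⟨hD0, hDD⟩ := hD2 s hs1
    have hS0 : 0 < Real.sin s := Real.sin_pos_of_pos_of_lt_pi hs0 hspi
    have hc1 : c s ≤ 1 := by simp only [c]; nlinarith [mul_pos hP (pow_pos hS0 2)]
    have hc2 : -1 ≤ c s := by simp only [c]; nlinarith
    have hcos : Real.cos (Real.arccos (c s)) = c s := Real.cos_arccos hc2 hc1
    have hsin : Real.sin (Real.arccos (c s)) = D s * Real.sin s := by
      rw [Real.sin_arccos]
      have : 1 - c s ^ 2 = (D s * Real.sin s) ^ 2 := by
        have : (D s * Real.sin s) ^ 2 = D s * D s * Real.sin s ^ 2 := by ring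
        rw [this, hDD]; simp only [c]; ring
      rw [this, Real.sqrt_sq (by positivity)]
    obtain ⟨χ', hχ', hrp⟩ := hh.map_rot hB hF (2 * s)
    have hN1 : ∀ x, ‖rfl' h (bs s) χ (fbs s) (Real.arccos (c s)) x‖ = ‖x‖ := by
      refine norm_rfl_of_rp hrp (r := 1) one_ne_zero ?_ ?_
      · rw [hcos, hsin, one_smul]
        simp only [bs, smul_smul]
        have e1 : D s * Real.sin s * (D s)⁻¹ = Real.sin s := by field_simp
        rw [e1]
        simp only [rot, h2, ← hγ, Real.cos_two_mul, Real.sin_two_mul, c]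
        have e2 : 2 * Real.cos s ^ 2 - 1 - 1 = -(2 * Real.sin s ^ 2) := by
          have := Real.sin_sq_add_cos_sq s; linear_combination 2 * this
        rw [e2]
        module
      · intro x
        rw [hcos, hsin, hχ']
        simp only [fbs, ContinuousLinearMap.smul_apply, ContinuousLinearMap.sub_apply,
          smul_eq_mul]
        simp only [rot, map_add, map_smul, h1, ← hδ, Real.cos_neg, Real.sin_neg,
          Real.cos_two_mul, Real.sin_two_mul, c, smul_eq_mul]
        have e2 : Real.cos s ^ 2 = 1 - Real.sin s ^ 2 := by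
          have := Real.sin_sq_add_cos_sq s; linarith
        field_simp
        rw [e2]
        ring
    exact nps_of_rfl (hBi s hs1) hN1 (norm_rfl_zero hh)
  · filter_upwards [hev] with s hs
    obtain ⟨hs0, hspi, hs1⟩ := hs
    have hS0 : 0 < Real.sin s := Real.sin_pos_of_pos_of_lt_pi hs0 hspi
    have hc1 : c s < 1 := by simp only [c]; nlinarith [mul_pos hP (pow_pos hS0 2)]
    have := Real.arccos_pos.2 hc1
    simp only [sub_zero]
    positivity
  · have hcont : Continuous fun s : ℝ => 2 * (Real.arccos (c s) - 0) := by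
      simp only [c]
      exact continuous_const.mul ((Real.continuous_arccos.comp (by fun_prop)).sub continuous_const)
    have := (hcont.tendsto 0).mono_left (nhdsWithin_le_nhds (s := Set.Ioi 0))
    simpa [c] using this
  · have hDc : Tendsto (fun s => (D s)⁻¹) (𝓝[>] 0) (𝓝 ((2 * Real.sqrt P)⁻¹)) := by
      refine Tendsto.inv₀ ?_ (by positivity)
      have hcont : Continuous D := by
        simp only [D, c]; fun_prop
      have := (hcont.tendsto 0).mono_left (nhdsWithin_le_nhds (s := Set.Ioi 0))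
      have e : D 0 = 2 * Real.sqrt P := by
        simp only [D, c, Real.sin_zero]
        rw [show 2 * P * (1 + (1 - 2 * P * 0 ^ 2)) = 2 ^ 2 * P by ring,
          Real.sqrt_mul (by norm_num), Real.sqrt_sq (by norm_num)]
      rwa [e] at this
    have hv : Tendsto (fun s => (2 * P * Real.sin s) • h - (2 * γ * Real.cos s) • a -
        (2 * γ * Real.sin s) • b) (𝓝[>] (0 : ℝ)) (𝓝 (-(2 * γ) • a)) := by
      have hcont : Continuous fun s : ℝ => (2 * P * Real.sin s) • h - (2 * γ * Real.cos s) • a -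
        (2 * γ * Real.sin s) • b := by fun_prop
      have := (hcont.tendsto 0).mono_left (nhdsWithin_le_nhds (s := Set.Ioi 0))
      have e : (2 * P * Real.sin 0) • h - (2 * γ * Real.cos 0) • a -
        (2 * γ * Real.sin 0) • b = -(2 * γ) • a := by
        simp
      rwa [e] at this
    have := hDc.smul hv
    have e : (2 * Real.sqrt P)⁻¹ • (-(2 * γ) • a) = -(γ / Real.sqrt P) • a := by
      rw [smul_smul]; congr 1; field_simp
    rwa [e] at this
  · intro x
    have hDc : Tendsto (fun s => (D s)⁻¹) (𝓝[>] 0) (𝓝 ((2 * Real.sqrt P)⁻¹)) := by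
      refine Tendsto.inv₀ ?_ (by positivity)
      have hcont : Continuous D := by
        simp only [D, c]; fun_prop
      have := (hcont.tendsto 0).mono_left (nhdsWithin_le_nhds (s := Set.Ioi 0))
      have e : D 0 = 2 * Real.sqrt P := by
        simp only [D, c, Real.sin_zero]
        rw [show 2 * P * (1 + (1 - 2 * P * 0 ^ 2)) = 2 ^ 2 * P by ring,
          Real.sqrt_mul (by norm_num), Real.sqrt_sq (by norm_num)]
      rwa [e] at this
    have hv : Tendsto (fun s => (2 * P * Real.sin s) * χ x - (2 * δ * Real.cos s) * fa x -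
        (2 * δ * Real.sin s) * fb x) (𝓝[>] (0 : ℝ)) (𝓝 (-(2 * δ) * fa x)) := by
      have hcont : Continuous fun s : ℝ => (2 * P * Real.sin s) * χ x -
        (2 * δ * Real.cos s) * fa x - (2 * δ * Real.sin s) * fb x := by fun_prop
      have := (hcont.tendsto 0).mono_left (nhdsWithin_le_nhds (s := Set.Ioi 0))
      have e : (2 * P * Real.sin 0) * χ x - (2 * δ * Real.cos 0) * fa x -
        (2 * δ * Real.sin 0) * fb x = -(2 * δ) * fa x := by
        simp
      rwa [e] at this
    have := hDc.mul hv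
    have e : (2 * Real.sqrt P)⁻¹ * (-(2 * δ) * fa x) = (-(δ / Real.sqrt P) • fa) x := by
      simp only [ContinuousLinearMap.smul_apply, smul_eq_mul]; field_simp
    rw [e] at this
    refine this.congr fun s => ?_
    simp only [fbs, ContinuousLinearMap.smul_apply, ContinuousLinearMap.sub_apply, smul_eq_mul]

/-- normalised form of `gen` -/
theorem gen_one {a b h : Z} {fa fb χ : Z →L[ℝ] ℝ} (hB : Bi a b fa fb) (hF : Full a b fa fb)
    (ha : ‖a‖ = 1) (hh : RP h χ) (h1 : χ a = 0) (h2 : fa h = 0) (hP : 0 < fb h * χ b) :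
    Full h a χ fa := by
  obtain ⟨r, hr, hfull⟩ := gen hB hF hh h1 h2 hP
  have e1 := hfull (Real.pi / 2) h
  have e2 : rot h (r • a) χ (r⁻¹ • fa) (Real.pi / 2) h = r • a := by
    simp only [rot, hh.one, ContinuousLinearMap.smul_apply, h2, Real.cos_pi_div_two,
      Real.sin_pi_div_two, smul_zero]
    module
  rw [e2, norm_smul, ha, hh.nrm, mul_one, Real.norm_eq_abs] at e1
  rcases eq_or_eq_neg_of_abs_eq e1 with h5 | h5
  · rw [h5] at hfull
    simpa using hfull
  · intro t x
    have e3 : rot h a χ fa t x = rot h (r • a) χ (r⁻¹ • fa) (-t) x := by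
      rw [h5]
      simp only [rot, ContinuousLinearMap.smul_apply, Real.cos_neg, Real.sin_neg, smul_eq_mul,
        inv_neg, inv_one]
      module
    rw [e3, hfull]

/-- the numbers `cos² (π q)` -/
def Q2 : Set ℝ := {x | ∃ q : ℚ, x = Real.cos (Real.pi * q) ^ 2}

theorem countable_Q2 : Q2.Countable := by
  have : Q2 = Set.range fun q : ℚ => Real.cos (Real.pi * q) ^ 2 := by
    ext x; simp [Q2, eq_comm]
  rw [this]
  exact Set.countable_range _

theorem zero_mem_Q2 : (0 : ℝ) ∈ Q2 := ⟨1 / 2, by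
  push_cast
  rw [mul_one_div, Real.cos_pi_div_two]; norm_num⟩

theorem one_mem_Q2 : (1 : ℝ) ∈ Q2 := ⟨0, by simp⟩

/-- two reflections with an irrational angle -/
theorem plane_irr {a g : Z} {fa φ : Z →L[ℝ] ℝ} (ha : RP a fa) (hg : RP g φ)
    (hq : fa g * φ a ∉ Q2) : ∃ (b : Z) (fb : Z →L[ℝ] ℝ) (k k' : ℝ), 0 < k * k' ∧
      g = fa g • a + k • b ∧ (∀ x, φ x = φ a * fa x + k' * fb x) ∧ Bi a b fa fb ∧
      Full a b fa fb := by
  obtain ⟨p0, p1, -, -⟩ := ha.pair hg
  set c := fa g with hc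
  set d := φ a with hd
  set p := c * d with hp
  have hp0 : 0 < p := lt_of_le_of_ne p0 fun h => hq (by rw [← h]; exact zero_mem_Q2)
  have hp1 : p < 1 := lt_of_le_of_ne p1 fun h => hq (by rw [h]; exact one_mem_Q2)
  have hc0 : c ≠ 0 := by rintro h0; rw [hp, h0, zero_mul] at hp0; exact lt_irrefl _ hp0
  have hd0 : d ≠ 0 := by rintro h0; rw [hp, h0, mul_zero] at hp0; exact lt_irrefl _ hp0
  set s := Real.sqrt p with hs
  set u := Real.sqrt (1 - p) with hu
  have hs0 : 0 < s := Real.sqrt_pos.2 hp0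
  have hu0 : 0 < u := Real.sqrt_pos.2 (by linarith)
  have hs2 : s * s = p := Real.mul_self_sqrt hp0.le
  have hu2 : u * u = 1 - p := Real.mul_self_sqrt (by linarith)
  have hs1 : s ≤ 1 := by nlinarith
  -- r = c / s
  set r := c / s with hr
  have hr0 : r ≠ 0 := div_ne_zero hc0 hs0.ne'
  have hrinv : r⁻¹ = d / s := by
    rw [hr, inv_div, div_eq_div_iff hc0 hs0.ne', hs2, hp]; ring
  set b : Z := (r * u)⁻¹ • (g - c • a) with hb
  set fb : Z →L[ℝ] ℝ := (r / u) • (φ - d • fa) with hfb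
  have hru : r * u ≠ 0 := mul_ne_zero hr0 hu0.ne'
  have hB : Bi a b fa fb := by
    refine ⟨ha.one, ?_, ?_, ?_⟩
    · simp only [hb, hfb, ContinuousLinearMap.smul_apply, ContinuousLinearMap.sub_apply, map_smul,
        map_sub, hg.one, ha.one, ← hc, ← hd, smul_eq_mul]
      have : 1 - c * d = u * u := by rw [hu2, hp]
      field_simp
      linear_combination this
    · simp only [hb, map_smul, map_sub, ha.one, ← hc, smul_eq_mul]; ring
    · simp only [hfb, ContinuousLinearMap.smul_apply, ContinuousLinearMap.sub_apply, ha.one,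
        ← hd, smul_eq_mul]; ring
  have hcos : Real.cos (Real.arccos s) = s := Real.cos_arccos (by linarith) hs1
  have hsin : Real.sin (Real.arccos s) = u := by
    rw [Real.sin_arccos, pow_two, hs2]
  refine ⟨b, fb, r * u, u / r, ?_, ?_, ?_, hB, ?_⟩
  · have : r * u * (u / r) = u * u := by field_simp
    rw [this, hu2]; linarith
  · rw [hb, smul_smul, mul_inv_cancel₀ hru]; module
  · intro x
    simp only [hfb, ContinuousLinearMap.smul_apply, ContinuousLinearMap.sub_apply, smul_eq_mul]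
    field_simp
    ring
  · have hN : ∀ x, ‖rfl' a b fa fb (Real.arccos s) x‖ = ‖x‖ := by
      refine norm_rfl_of_rp hg (r := r) hr0 ?_ ?_
      · rw [hcos, hsin, smul_add, smul_smul, smul_smul, hb, smul_smul, mul_inv_cancel₀ hru]
        have : r * s = c := by rw [hr]; field_simp
        rw [this]; module
      · intro x
        rw [hcos, hsin]
        simp only [hfb, ContinuousLinearMap.smul_apply, ContinuousLinearMap.sub_apply,
          smul_eq_mul]
        have e1 : r⁻¹ * s = d := by rw [hrinv]; field_simp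
        have e2 : r⁻¹ * (s * fa x + u * (r / u * (φ x - d * fa x))) =
            r⁻¹ * s * fa x + (φ x - d * fa x) := by field_simp
        rw [e2, e1]; ring
    have hmem := nps_of_rfl hB hN (norm_rfl_zero ha)
    refine full_of_irr hB hmem fun q hq' => hq ⟨q, ?_⟩
    have : Real.arccos s = Real.pi * q := by linarith
    rw [← this, hcos, pow_two, hs2]

/-- irrational angle gives rotations in the orthogonal directions of the support -/
theorem full_of_irr_pair {a g h : Z} {fa φ χ : Z →L[ℝ] ℝ} (ha : RP a fa) (hg : RP g φ)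
    (hh : RP h χ) (hq : fa g * φ a ∉ Q2) (h1 : χ a = 0) (h2 : fa h = 0) (h3 : χ g ≠ 0) :
    Full h a χ fa := by
  obtain ⟨b, fb, k, k', hk, hg1, hφ, hB, hF⟩ := plane_irr ha hg hq
  obtain ⟨q0, -, q1, -⟩ := hh.pair hg
  have hφh : φ h ≠ 0 := fun h0 => h3 (q1.2 h0)
  have hpos : 0 < χ g * φ h := lt_of_le_of_ne q0 (mul_ne_zero h3 hφh).symm
  have e1 : χ g = k * χ b := by
    have := congrArg χ hg1
    simpa [map_add, map_smul, h1] using this
  have e2 : φ h = k' * fb h := by rw [hφ h, h2]; ring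
  refine gen_one hB hF ha.nrm hh h1 h2 ?_
  rw [e1, e2] at hpos
  have e3 : k * χ b * (k' * fb h) = (k * k') * (fb h * χ b) := by ring
  rw [e3] at hpos
  exact (mul_pos_iff_of_pos_left hk).1 hpos

end Pool.Agent.H83.Blk
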