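import Mathlib

/-!
Reflections and plane rotations which are isometries of a real normed space.
-/

set_option autoImplicit false
open Filter Topology

namespace Pool.Agent.H83.Blk

variable {Z : Type} [NormedAddCommGroup Z] [NormedSpace ℝ Z]

/-- the rotation by the angle `t` in the plane of `a, b` (with dual functionals `fa, fb`) -/
noncomputable def rot (a b : Z) (fa fb : Z →L[ℝ] ℝ) (t : ℝ) (x : Z) : Z :=
  x + ((Real.cos t - 1) * fa x - Real.sin t * fb x) • a
    + (Real.sin t * fa x + (Real.cos t - 1) * fb x) • b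

/-- biorthonormal pair -/
structure Bi (a b : Z) (fa fb : Z →L[ℝ] ℝ) : Prop where
  aa : fa a = 1
  bb : fb b = 1
  ab : fa b = 0
  ba : fb a = 0

/-- `x ↦ x - 2 φ(x) g` is a reflection and an isometry, `g` a unit vector. -/
structure RP (g : Z) (φ : Z →L[ℝ] ℝ) : Prop where
  one : φ g = 1
  nrm : ‖g‖ = 1
  refl : ∀ x, ‖x - (2 * φ x) • g‖ = ‖x‖

/-- all rotations of the plane are isometries of the whole space -/
def Full (a b : Z) (fa fb : Z →L[ℝ] ℝ) : Prop :=
  ∀ t x, ‖rot a b fa fb t x‖ = ‖x‖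

section rot

variable {a b : Z} {fa fb : Z →L[ℝ] ℝ}

theorem fa_rot (h : Bi a b fa fb) (t : ℝ) (x : Z) :
    fa (rot a b fa fb t x) = Real.cos t * fa x - Real.sin t * fb x := by
  simp only [rot, map_add, map_smul, h.aa, h.ab, smul_eq_mul]
  ring

theorem fb_rot (h : Bi a b fa fb) (t : ℝ) (x : Z) :
    fb (rot a b fa fb t x) = Real.sin t * fa x + Real.cos t * fb x := by
  simp only [rot, map_add, map_smul, h.ba, h.bb, smul_eq_mul]
  ring

theorem rot_rot (h : Bi a b fa fb) (s t : ℝ) (x : Z) :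
    rot a b fa fb s (rot a b fa fb t x) = rot a b fa fb (s + t) x := by
  have h1 := fa_rot h t x
  have h2 := fb_rot h t x
  rw [rot, h1, h2]
  simp only [rot, Real.cos_add, Real.sin_add]
  module

theorem rot_zero (x : Z) : rot a b fa fb 0 x = x := by simp [rot]

theorem rot_two_pi (x : Z) : rot a b fa fb (2 * Real.pi) x = x := by simp [rot]

/-- the set of angles whose rotation is norm preserving -/
def nps (h : Bi a b fa fb) : AddSubgroup ℝ where
  carrier := {t | ∀ x, ‖rot a b fa fb t x‖ = ‖x‖}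
  zero_mem' := fun x => by rw [rot_zero]
  add_mem' := by
    intro s t hs ht x
    rw [← rot_rot h, hs, ht]
  neg_mem' := by
    intro t ht x
    have h1 := ht (rot a b fa fb (-t) x)
    rw [rot_rot h, add_neg_cancel, rot_zero] at h1
    exact h1.symm

theorem mem_nps (h : Bi a b fa fb) (t : ℝ) :
    t ∈ nps h ↔ ∀ x, ‖rot a b fa fb t x‖ = ‖x‖ := Iff.rfl

theorem isClosed_nps (h : Bi a b fa fb) : IsClosed (nps h : Set ℝ) := by
  have : (nps h : Set ℝ) = ⋂ x : Z, {t | ‖rot a b fa fb t x‖ = ‖x‖} := by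
    ext t; simp [← SetLike.mem_coe, nps]
  rw [this]
  refine isClosed_iInter fun x => isClosed_eq ?_ continuous_const
  unfold rot
  fun_prop

theorem two_pi_mem (h : Bi a b fa fb) : 2 * Real.pi ∈ nps h := by
  intro x; rw [rot_two_pi]

theorem full_of_irr (h : Bi a b fa fb) {t : ℝ} (ht : t ∈ nps h)
    (hq : ∀ q : ℚ, t ≠ 2 * Real.pi * q) : Full a b fa fb := by
  rcases (nps h).dense_or_cyclic with hd | ⟨c, hc⟩
  · intro s x
    have : (nps h : Set ℝ) = Set.univ := by
      rw [← (isClosed_nps h).closure_eq]; exact hd.closure_eq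
    have hs : s ∈ (nps h : Set ℝ) := by rw [this]; trivial
    exact hs x
  · exfalso
    have h1 := two_pi_mem h
    rw [hc] at h1 ht
    obtain ⟨m, hm⟩ := AddSubgroup.mem_closure_singleton.1 h1
    obtain ⟨n, hn⟩ := AddSubgroup.mem_closure_singleton.1 ht
    simp only [zsmul_eq_mul] at hm hn
    have hm0 : (m : ℝ) ≠ 0 := by
      intro h0
      rw [h0, zero_mul] at hm
      have := Real.pi_pos
      linarith
    refine hq ((n : ℚ) / m) ?_
    push_cast
    rw [← hm, ← hn]
    field_simp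

theorem full_limit {ι : Type} {l : Filter ι} [l.NeBot] (bs : ι → Z) (fbs : ι → Z →L[ℝ] ℝ)
    (ts : ι → ℝ) (hB : ∀ᶠ i in l, Bi a (bs i) fa (fbs i))
    (hN : ∀ᶠ i in l, ∀ x, ‖rot a (bs i) fa (fbs i) (ts i) x‖ = ‖x‖)
    (h0 : ∀ᶠ i in l, ts i ≠ 0) (ht : Tendsto ts l (𝓝 0)) (hb : Tendsto bs l (𝓝 b))
    (hf : ∀ x, Tendsto (fun i => fbs i x) l (𝓝 (fb x))) : Full a b fa fb := by
  intro t x
  set s : ι → ℝ := fun i => (⌊t / ts i⌋ : ℤ) * ts i with hs
  have hst : Tendsto s l (𝓝 t) := by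
    rw [tendsto_iff_norm_sub_tendsto_zero]
    refine squeeze_zero' (Eventually.of_forall fun i => norm_nonneg _) ?_
      (by simpa using ht.norm)
    filter_upwards [h0] with i hi
    have h1 := Int.floor_le (t / ts i)
    have h2 := Int.lt_floor_add_one (t / ts i)
    have h3 : s i - t = -((t / ts i - (⌊t / ts i⌋ : ℤ)) * ts i) := by
      simp only [hs]; field_simp; ring
    rw [h3, norm_neg, norm_mul]
    have h4 : ‖t / ts i - (⌊t / ts i⌋ : ℤ)‖ ≤ 1 := by
      rw [Real.norm_eq_abs, abs_le]; constructor <;> linarith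
    calc _ ≤ 1 * ‖ts i‖ := by gcongr
      _ = ‖ts i‖ := one_mul _
  have hlim : Tendsto (fun i => ‖rot a (bs i) fa (fbs i) (s i) x‖) l
      (𝓝 ‖rot a b fa fb t x‖) := by
    refine Tendsto.norm ?_
    have hc : Tendsto (fun i => Real.cos (s i)) l (𝓝 (Real.cos t)) :=
      (Real.continuous_cos.tendsto t).comp hst
    have hsn : Tendsto (fun i => Real.sin (s i)) l (𝓝 (Real.sin t)) :=
      (Real.continuous_sin.tendsto t).comp hst
    unfold rot
    exact (tendsto_const_nhds.add ((((hc.sub_const 1).mul_const _).sub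
      (hsn.mul (hf x))).smul tendsto_const_nhds)).add
      (((hsn.mul_const _).add ((hc.sub_const 1).mul (hf x))).smul hb)
  have hev : ∀ᶠ i in l, ‖rot a (bs i) fa (fbs i) (s i) x‖ = ‖x‖ := by
    filter_upwards [hB, hN] with i hi1 hi2
    have h1 : ts i ∈ nps hi1 := hi2
    have h2 := (nps hi1).zsmul_mem h1 ⌊t / ts i⌋
    rw [zsmul_eq_mul] at h2
    exact h2 x
  exact tendsto_nhds_unique (hlim.congr' hev) tendsto_const_nhds ▸ rfl

/-- reflection in the direction `η` of the plane -/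
noncomputable def rfl' (a b : Z) (fa fb : Z →L[ℝ] ℝ) (η : ℝ) (x : Z) : Z :=
  x - (2 * (Real.cos η * fa x + Real.sin η * fb x)) • (Real.cos η • a + Real.sin η • b)

theorem rfl_rfl (h : Bi a b fa fb) (η θ : ℝ) (x : Z) :
    rfl' a b fa fb η (rfl' a b fa fb θ x) = rot a b fa fb (2 * (η - θ)) x := by
  have hC := Real.sin_sq_add_cos_sq η
  have hC' := Real.sin_sq_add_cos_sq θ
  have e1 : Real.cos (2 * (η - θ)) =
      2 * (Real.cos η * Real.cos θ + Real.sin η * Real.sin θ) ^ 2 - 1 := by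
    rw [Real.cos_two_mul, Real.cos_sub]
  have e2 : Real.sin (2 * (η - θ)) =
      2 * (Real.sin η * Real.cos θ - Real.cos η * Real.sin θ) *
        (Real.cos η * Real.cos θ + Real.sin η * Real.sin θ) := by
    rw [Real.sin_two_mul, Real.cos_sub, Real.sin_sub]
  set C := Real.cos η
  set S := Real.sin η
  set C' := Real.cos θ
  set S' := Real.sin θ
  have y1 : fa (rfl' a b fa fb θ x) = fa x - 2 * (C' * fa x + S' * fb x) * C' := by
    simp only [rfl', map_sub, map_add, map_smul, h.aa, h.ab, smul_eq_mul]; ring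
  have y2 : fb (rfl' a b fa fb θ x) = fb x - 2 * (C' * fa x + S' * fb x) * S' := by
    simp only [rfl', map_sub, map_add, map_smul, h.ba, h.bb, smul_eq_mul]; ring
  have z : rfl' a b fa fb η (rfl' a b fa fb θ x) =
      x + (-2 * (C' * fa x + S' * fb x) * C' -
        2 * (C * (fa x - 2 * (C' * fa x + S' * fb x) * C') +
          S * (fb x - 2 * (C' * fa x + S' * fb x) * S')) * C) • a +
        (-2 * (C' * fa x + S' * fb x) * S' -
        2 * (C * (fa x - 2 * (C' * fa x + S' * fb x) * C') +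
          S * (fb x - 2 * (C' * fa x + S' * fb x) * S')) * S) • b := by
    rw [rfl', y1, y2]
    simp only [rfl']
    module
  rw [z, rot, e1, e2]
  congr 1
  · congr 2
    linear_combination (-(2 * (1 - C' ^ 2) * fa x) + 2 * C' * S' * fb x) * hC +
      (-(2 * S ^ 2 * fa x) + 2 * S * C * fb x) * hC'
  · congr 1
    linear_combination (2 * C' * S' * fa x - 2 * (1 - S' ^ 2) * fb x) * hC +
      (2 * S * C * fa x - 2 * C ^ 2 * fb x) * hC'

theorem nps_of_rfl (h : Bi a b fa fb) {η θ : ℝ}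
    (h1 : ∀ x, ‖rfl' a b fa fb η x‖ = ‖x‖) (h2 : ∀ x, ‖rfl' a b fa fb θ x‖ = ‖x‖) :
    2 * (η - θ) ∈ nps h := by
  intro x
  rw [← rfl_rfl h, h1, h2]

end rot

end Pool.Agent.H83.Blk
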