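import Pool.Agent.H42.BH.BlocksA
import Pool.Agent.H83.Blk.Refl

/-! (By helper42, adapted.) A small number of isometry classes of block subspaces forces the norm of a sum of two blocks
to depend on the norms of the blocks only. -/

open Pool.Agent.H42.BH Finset Cardinal

namespace Pool.Agent.H83.Blk

variable {X : Type} [NormedAddCommGroup X] [NormedSpace ℝ X]

lemma pairVals_map {Z W : Type} [NormedAddCommGroup Z] [NormedSpace ℝ Z] [NormedAddCommGroup W]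
    [NormedSpace ℝ W] (T : Z ≃ₗᵢ[ℝ] W) (α β : ℝ) : pairVals Z α β ⊆ pairVals W α β := by
  rintro t ⟨g, h, φ, ψ, hg, hh, h1, h2, ht⟩
  refine ⟨T g, T h, _, _, hg.map T, hh.map T, ?_, ?_, ?_⟩
  · simpa using h1
  · simpa using h2
  · rw [ht, ← map_smul, ← map_smul, ← map_add, T.norm_map]

/-- the starting points of our blocks: `0, m, m', m'+1, ...` -/
def pp (m m' : ℕ) : ℕ → ℕ
  | 0 => 0
  | 1 => m
  | k + 2 => m' + k

/-- the coefficients of our blocks -/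
def bb (m m' : ℕ) (x y : ℕ → ℝ) (n : ℕ) : ℝ := if n < m then x n else if n < m' then y n else 1

/-- a piece of a vector -/
def pc (e : ℕ → X) (l r : ℕ) (x : ℕ → ℝ) : X := ∑ n ∈ Finset.Ico l r, x n • e n

lemma pp_strictMono {m m' : ℕ} (h0 : 0 < m) (h1 : m < m') : StrictMono (pp m m') := by
  refine strictMono_nat_of_lt_succ fun k => ?_
  match k with
  | 0 => exact h0
  | 1 => simpa [pp] using h1
  | k + 2 => simp [pp]

/-- block sequences starting at `0` whose blocks are singletons from the third one on -/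
def Tail (p : ℕ → ℕ) : Prop := p 0 = 0 ∧ ∀ k, 2 ≤ k → p (k + 1) = p k + 1

lemma tail_pp (m m' : ℕ) : Tail (pp m m') := by
  refine ⟨rfl, fun k hk => ?_⟩
  match k with
  | 0 => omega
  | 1 => omega
  | k + 2 => rfl

lemma blk_zero (e : ℕ → X) (m m' : ℕ) (x y : ℕ → ℝ) :
    blk e (pp m m') (bb m m' x y) 0 = pc e 0 m x := by
  unfold blk pc
  refine Finset.sum_congr rfl fun n hn => ?_
  have h1 : n < m := (Finset.mem_Ico.mp hn).2
  simp [bb, h1]

lemma blk_one (e : ℕ → X) (m m' : ℕ) (x y : ℕ → ℝ) :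
    blk e (pp m m') (bb m m' x y) 1 = pc e m m' y := by
  unfold blk pc
  have e1 : pp m m' 1 = m := rfl
  have e2 : pp m m' (1 + 1) = m' := rfl
  rw [e1, e2]
  refine Finset.sum_congr rfl fun n hn => ?_
  have h1 : ¬ n < m := not_lt.mpr (Finset.mem_Ico.mp hn).1
  have h2 : n < m' := (Finset.mem_Ico.mp hn).2
  simp [bb, h1, h2]

lemma blk_two (e : ℕ → X) {m m' : ℕ} (hm : m < m') (x y : ℕ → ℝ) (k : ℕ) :
    blk e (pp m m') (bb m m' x y) (k + 2) = e (m' + k) := by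
  unfold blk
  have e1 : pp m m' (k + 2) = m' + k := rfl
  have e2 : pp m m' (k + 2 + 1) = m' + k + 1 := rfl
  rw [e1, e2, Finset.sum_eq_single_of_mem (m' + k) (by simp)]
  · have h1 : ¬ m' + k < m := by omega
    simp [bb, h1]
  · intro n hn hne
    rw [Finset.mem_Ico] at hn
    omega

lemma isNBlk {e : ℕ → X} (h : UB e) {m m' : ℕ} (h0 : 0 < m) (h1 : m < m') {x y : ℕ → ℝ}
    (hx : ‖pc e 0 m x‖ = 1) (hy : ‖pc e m m' y‖ = 1) :
    IsNBlk e (pp m m') (bb m m' x y) := by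
  refine ⟨pp_strictMono h0 h1, fun k => ?_⟩
  match k with
  | 0 => rw [blk_zero]; exact hx
  | 1 => rw [blk_one]; exact hy
  | k + 2 => rw [blk_two e h1]; exact h.nrm _

/-- signs on pieces -/
lemma pc_unc {e : ℕ → X} (h : UB e) (ε : ℕ → ℝ) (hε : ∀ n, ε n = 1 ∨ ε n = -1) (s : Finset ℕ)
    (x : ℕ → ℝ) : ‖∑ n ∈ s, (ε n * x n) • e n‖ = ‖∑ n ∈ s, x n • e n‖ := by
  have h1 := h.unc ε hε (∑ n ∈ s, Finsupp.single n (x n))
  rw [map_sum, map_sum] at h1
  simp only [Finsupp.linearCombination_single] at h1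
  rw [← h1]
  congr 1
  refine Finset.sum_congr rfl fun n _ => ?_
  rw [smul_smul, mul_comm]

lemma coef_le {e : ℕ → X} (h : UB e) (s : Finset ℕ) (x : ℕ → ℝ) {n : ℕ} (hn : n ∈ s) :
    |x n| ≤ ‖∑ i ∈ s, x i • e i‖ := by
  classical
  have h1 := pc_unc h (fun i => if i = n then -1 else 1) (fun i => by by_cases hi : i = n <;> simp [hi])
    s x
  have h2 : (2 * x n) • e n = ∑ i ∈ s, x i • e i - ∑ i ∈ s, ((if i = n then -1 else 1) * x i) • e i := by
    rw [← Finset.sum_sub_distrib, Finset.sum_eq_single_of_mem n hn]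
    · simp only [if_true]; module
    · intro j _ hj
      simp [hj]
  have h3 : ‖(2 * x n) • e n‖ = 2 * |x n| := by
    rw [norm_smul, h.nrm, mul_one, Real.norm_eq_abs, abs_mul, abs_two]
  have h4 : ‖(2 * x n) • e n‖ ≤ ‖∑ i ∈ s, x i • e i‖ + ‖∑ i ∈ s, x i • e i‖ := by
    rw [h2]
    refine (norm_sub_le _ _).trans ?_
    rw [h1]
  linarith

lemma pc_comb (e : ℕ → X) (l r : ℕ) (x y : ℕ → ℝ) (s t : ℝ) :
    pc e l r (fun n => s * x n + t * y n) = s • pc e l r x + t • pc e l r y := by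
  unfold pc
  rw [Finset.smul_sum, Finset.smul_sum, ← Finset.sum_add_distrib]
  refine Finset.sum_congr rfl fun n _ => ?_
  rw [add_smul, smul_smul, smul_smul]

lemma pc_smul (e : ℕ → X) (l r : ℕ) (x : ℕ → ℝ) (s : ℝ) :
    pc e l r (fun n => s * x n) = s • pc e l r x := by
  unfold pc
  rw [Finset.smul_sum]
  refine Finset.sum_congr rfl fun n _ => ?_
  rw [smul_smul]

/-- the segment between two nonnegative vectors does not meet zero -/
lemma seg_ne_zero {e : ℕ → X} (h : UB e) {l r : ℕ} {x y : ℕ → ℝ} (hx0 : ∀ n, 0 ≤ x n)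
    (hy0 : ∀ n, 0 ≤ y n) (hx : ‖pc e l r x‖ = 1) (hy : ‖pc e l r y‖ = 1) {t : ℝ}
    (ht0 : 0 ≤ t) (ht1 : t ≤ 1) : 0 < ‖pc e l r (fun n => (1 - t) * x n + t * y n)‖ := by
  rcases ht1.lt_or_eq with ht | ht
  · obtain ⟨n, hn, hxn⟩ : ∃ n ∈ Finset.Ico l r, x n ≠ 0 := by
      by_contra hcon
      push Not at hcon
      have : pc e l r x = 0 := Finset.sum_eq_zero fun n hn => by rw [hcon n hn, zero_smul]
      rw [this, norm_zero] at hx
      exact zero_ne_one hx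
    have h1 := coef_le h (Finset.Ico l r) (fun n => (1 - t) * x n + t * y n) hn
    have h2 : 0 < (1 - t) * x n + t * y n := by
      have : 0 < x n := lt_of_le_of_ne (hx0 n) (Ne.symm hxn)
      have h3 : 0 < 1 - t := by linarith
      have h4 := hy0 n
      positivity
    exact lt_of_lt_of_le (abs_pos.mpr h2.ne') h1
  · subst ht
    have : pc e l r (fun n => (1 - 1) * x n + 1 * y n) = pc e l r y := by
      rw [pc_comb]; simp
    rw [this, hy]; exact one_pos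

/-- normalized path -/
noncomputable def path (e : ℕ → X) (l r : ℕ) (x y : ℕ → ℝ) (t : ℝ) : ℕ → ℝ := fun n =>
  ‖pc e l r (fun n => (1 - t) * x n + t * y n)‖⁻¹ * ((1 - t) * x n + t * y n)

lemma pc_path (e : ℕ → X) (l r : ℕ) (x y : ℕ → ℝ) (t : ℝ) :
    pc e l r (path e l r x y t) = ‖pc e l r (fun n => (1 - t) * x n + t * y n)‖⁻¹ •
      ((1 - t) • pc e l r x + t • pc e l r y) := by
  unfold path
  rw [pc_smul, pc_comb]

lemma norm_pc_path {e : ℕ → X} (h : UB e) {l r : ℕ} {x y : ℕ → ℝ} (hx0 : ∀ n, 0 ≤ x n)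
    (hy0 : ∀ n, 0 ≤ y n) (hx : ‖pc e l r x‖ = 1) (hy : ‖pc e l r y‖ = 1) {t : ℝ}
    (ht0 : 0 ≤ t) (ht1 : t ≤ 1) : ‖pc e l r (path e l r x y t)‖ = 1 := by
  have h1 := seg_ne_zero h hx0 hy0 hx hy ht0 ht1
  rw [pc_path, norm_smul, ← pc_comb, norm_inv, norm_norm, inv_mul_cancel₀ h1.ne']

lemma path_zero {e : ℕ → X} {l r : ℕ} {x y : ℕ → ℝ} (hx : ‖pc e l r x‖ = 1) :
    pc e l r (path e l r x y 0) = pc e l r x := by
  rw [pc_path, pc_comb]; simp [hx]

lemma path_one {e : ℕ → X} {l r : ℕ} {x y : ℕ → ℝ} (hy : ‖pc e l r y‖ = 1) :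
    pc e l r (path e l r x y 1) = pc e l r y := by
  rw [pc_path, pc_comb]; simp [hy]

lemma path_cont {e : ℕ → X} (h : UB e) {l r : ℕ} {x y : ℕ → ℝ} (hx0 : ∀ n, 0 ≤ x n)
    (hy0 : ∀ n, 0 ≤ y n) (hx : ‖pc e l r x‖ = 1) (hy : ‖pc e l r y‖ = 1) :
    ContinuousOn (fun t => pc e l r (path e l r x y t)) (Set.Icc 0 1) := by
  have h1 : ContinuousOn (fun t : ℝ => ‖pc e l r (fun n => (1 - t) * x n + t * y n)‖⁻¹)
      (Set.Icc 0 1) := by
    refine ContinuousOn.inv₀ ?_ (fun t ht => (seg_ne_zero h hx0 hy0 hx hy ht.1 ht.2).ne')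
    have : (fun t : ℝ => ‖pc e l r (fun n => (1 - t) * x n + t * y n)‖) =
        fun t => ‖(1 - t) • pc e l r x + t • pc e l r y‖ := by
      funext t; rw [pc_comb]
    rw [this]
    fun_prop
  have h2 : (fun t => pc e l r (path e l r x y t)) = fun t =>
      ‖pc e l r (fun n => (1 - t) * x n + t * y n)‖⁻¹ •
        ((1 - t) • pc e l r x + t • pc e l r y) := by
    funext t; rw [pc_path]
  rw [h2]
  refine h1.smul ?_
  fun_prop

/-- a continuous function on `[0,1]` with fewer than continuum many values is constant -/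
lemma const_of_small {f : ℝ → ℝ} (hf : ContinuousOn f (Set.Icc 0 1)) {V : Set ℝ}
    (hV : #V < 𝔠) (hfV : ∀ t ∈ Set.Icc (0:ℝ) 1, f t ∈ V) : f 0 = f 1 := by
  by_contra hne
  have key : Set.uIcc (f 0) (f 1) ⊆ V := by
    have h1 := intermediate_value_uIcc (a := (0:ℝ)) (b := 1) (f := f)
      (by rwa [Set.uIcc_of_le zero_le_one])
    refine h1.trans ?_
    rintro _ ⟨t, ht, rfl⟩
    rw [Set.uIcc_of_le zero_le_one] at ht
    exact hfV t ht
  have h2 : #(Set.uIcc (f 0) (f 1)) = 𝔠 := by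
    rw [Set.uIcc]
    exact Cardinal.mk_Icc_real (by
      rcases lt_or_gt_of_ne hne with h | h
      · rw [min_eq_left h.le, max_eq_right h.le]; exact h
      · rw [min_eq_right h.le, max_eq_left h.le]; exact h)
  have h3 := Cardinal.mk_le_mk_of_subset key
  rw [h2] at h3
  exact absurd hV (not_lt.mpr h3)

/-- the set of all values -/
def valSet (e : ℕ → X) (C : Set ((ℕ → ℕ) × (ℕ → ℝ))) (α β : ℝ) : Set ℝ :=
  ⋃ w ∈ C, pairVals (blkSpan e w.1 w.2) α β

lemma mk_valSet {e : ℕ → X} {C : Set ((ℕ → ℕ) × (ℕ → ℝ))} (hC : #C < 𝔠) {α β : ℝ}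
    (hc : ∀ w ∈ C, (pairVals (blkSpan e w.1 w.2) α β).Countable) : #(valSet e C α β) < 𝔠 := by
  have h1 : #(valSet e C α β) ≤ #C * ℵ₀ := by
    unfold valSet
    rw [Set.biUnion_eq_iUnion]
    refine (Cardinal.mk_iUnion_le_sum_mk).trans ?_
    have h2 : (Cardinal.sum fun w : C => #(pairVals (blkSpan e w.1.1 w.1.2) α β)) ≤
        Cardinal.sum fun _ : C => ℵ₀ := by
      refine Cardinal.sum_le_sum _ _ fun w => ?_
      exact Cardinal.le_aleph0_iff_set_countable.mpr (hc w.1 w.2)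
    refine h2.trans ?_
    rw [Cardinal.sum_const']
  exact lt_of_le_of_lt h1 (Cardinal.mul_lt_of_lt Cardinal.aleph0_le_continuum hC
    Cardinal.aleph0_lt_continuum)

variable {e : ℕ → X}

/-- the standing assumptions -/
structure Small (e : ℕ → X) (C : Set ((ℕ → ℕ) × (ℕ → ℝ))) : Prop where
  ub : UB e
  card : #C < 𝔠
  mem : ∀ w ∈ C, IsNBlk e w.1 w.2
  key : ∀ w ∈ C, ∀ α β, (pairVals (blkSpan e w.1 w.2) α β).Countable
  rep : ∀ p b, IsNBlk e p b → Tail p → ∃ w ∈ C, Nonempty (blkSpan e p b ≃ₗᵢ[ℝ] blkSpan e w.1 w.2)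
  rp : ∀ p b, IsNBlk e p b → ∃ φ₀ φ₁ : blkSpan e p b →L[ℝ] ℝ, RP (blkV e p b 0) φ₀ ∧
    RP (blkV e p b 1) φ₁ ∧ φ₀ (blkV e p b 1) = 0 ∧ φ₁ (blkV e p b 0) = 0

lemma Small.val_mem {C : Set ((ℕ → ℕ) × (ℕ → ℝ))} (H : Small e C) {p : ℕ → ℕ} {b : ℕ → ℝ}
    (hb : IsNBlk e p b) (hp : Tail p) (α β : ℝ) : ‖α • blk e p b 0 + β • blk e p b 1‖ ∈ valSet e C α β := by
  obtain ⟨φ₀, φ₁, h1, h2, h3, h4⟩ := H.rp p b hb
  obtain ⟨w, hw, ⟨T⟩⟩ := H.rep p b hb hp
  refine Set.mem_biUnion hw (pairVals_map T α β ?_)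
  exact ⟨_, _, _, _, h1, h2, h3, h4, rfl⟩

lemma Small.path_const {C : Set ((ℕ → ℕ) × (ℕ → ℝ))} (H : Small e C) {m m' : ℕ} (h0 : 0 < m)
    (h1 : m < m') {x y : ℝ → ℕ → ℝ}
    (hx : ∀ t ∈ Set.Icc (0:ℝ) 1, ‖pc e 0 m (x t)‖ = 1)
    (hy : ∀ t ∈ Set.Icc (0:ℝ) 1, ‖pc e m m' (y t)‖ = 1)
    (cx : ContinuousOn (fun t => pc e 0 m (x t)) (Set.Icc 0 1))
    (cy : ContinuousOn (fun t => pc e m m' (y t)) (Set.Icc 0 1)) (α β : ℝ) :
    ‖α • pc e 0 m (x 0) + β • pc e m m' (y 0)‖ = ‖α • pc e 0 m (x 1) + β • pc e m m' (y 1)‖ := by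
  refine const_of_small (f := fun t => ‖α • pc e 0 m (x t) + β • pc e m m' (y t)‖) ?_
    (mk_valSet (α := α) (β := β) H.card (fun w hw => H.key w hw α β)) ?_
  · exact ((cx.const_smul α).add (cy.const_smul β)).norm
  · intro t ht
    have := H.val_mem (isNBlk H.ub h0 h1 (hx t ht) (hy t ht)) (tail_pp m m') α β
    rwa [blk_zero, blk_one] at this

lemma Small.first {C : Set ((ℕ → ℕ) × (ℕ → ℝ))} (H : Small e C) {m m' : ℕ} (h0 : 0 < m)
    (h1 : m < m') {x x' y : ℕ → ℝ} (hx0 : ∀ n, 0 ≤ x n) (hx0' : ∀ n, 0 ≤ x' n)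
    (hx : ‖pc e 0 m x‖ = 1) (hx' : ‖pc e 0 m x'‖ = 1) (hy : ‖pc e m m' y‖ = 1) (α β : ℝ) :
    ‖α • pc e 0 m x + β • pc e m m' y‖ = ‖α • pc e 0 m x' + β • pc e m m' y‖ := by
  have := H.path_const h0 h1 (x := path e 0 m x x') (y := fun _ => y)
    (fun t ht => norm_pc_path H.ub hx0 hx0' hx hx' ht.1 ht.2) (fun _ _ => hy)
    (path_cont H.ub hx0 hx0' hx hx') continuousOn_const α β
  rwa [path_zero hx, path_one hx'] at this

lemma Small.second {C : Set ((ℕ → ℕ) × (ℕ → ℝ))} (H : Small e C) {m m' : ℕ} (h0 : 0 < m)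
    (h1 : m < m') {x y y' : ℕ → ℝ} (hy0 : ∀ n, 0 ≤ y n) (hy0' : ∀ n, 0 ≤ y' n)
    (hx : ‖pc e 0 m x‖ = 1) (hy : ‖pc e m m' y‖ = 1) (hy' : ‖pc e m m' y'‖ = 1) (α β : ℝ) :
    ‖α • pc e 0 m x + β • pc e m m' y‖ = ‖α • pc e 0 m x + β • pc e m m' y'‖ := by
  have := H.path_const h0 h1 (x := fun _ => x) (y := path e m m' y y') (fun _ _ => hx)
    (fun t ht => norm_pc_path H.ub hy0 hy0' hy hy' ht.1 ht.2)
    continuousOn_const (path_cont H.ub hy0 hy0' hy hy') α β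
  rwa [path_zero hy, path_one hy'] at this

/-- the norm of a sum of two nonnegative blocks -/
lemma Small.two {C : Set ((ℕ → ℕ) × (ℕ → ℝ))} (H : Small e C) {m m' : ℕ} (h0 : 0 < m)
    (h1 : m < m') {x y : ℕ → ℝ} (hx0 : ∀ n, 0 ≤ x n) (hy0 : ∀ n, 0 ≤ y n)
    (hx : ‖pc e 0 m x‖ = 1) (hy : ‖pc e m m' y‖ = 1) (α β : ℝ) :
    ‖α • pc e 0 m x + β • pc e m m' y‖ = ‖α • e 0 + β • e 1‖ := by
  classical
  set d0 : ℕ → ℝ := fun n => if n = 0 then 1 else 0 with hd0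
  set d1 : ℕ → ℝ := fun n => if n = 1 then 1 else 0 with hd1
  have hd0p : ∀ n, 0 ≤ d0 n := fun n => by rw [hd0]; dsimp only; split_ifs <;> norm_num
  have hd1p : ∀ n, 0 ≤ d1 n := fun n => by rw [hd1]; dsimp only; split_ifs <;> norm_num
  have p0 : ∀ k, 0 < k → pc e 0 k d0 = e 0 := by
    intro k hk
    unfold pc
    rw [Finset.sum_eq_single_of_mem 0 (by simpa using hk)]
    · simp [hd0]
    · intro n _ hn
      simp [hd0, hn]
  have p1 : pc e 1 m' d1 = e 1 := by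
    unfold pc
    rw [Finset.sum_eq_single_of_mem 1 (by rw [Finset.mem_Ico]; omega)]
    · simp [hd1]
    · intro n _ hn
      simp [hd1, hn]
  have s1 := H.first h0 h1 hx0 hd0p hx (by rw [p0 m h0]; exact H.ub.nrm 0) hy α β
  rw [s1, p0 m h0]
  set y' : ℕ → ℝ := fun n => if m ≤ n then y n else 0 with hy'
  have hy'p : ∀ n, 0 ≤ y' n := fun n => by
    rw [hy']; dsimp only; split_ifs
    · exact hy0 n
    · exact le_rfl
  have p2 : pc e 1 m' y' = pc e m m' y := by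
    unfold pc
    have hsub : Finset.Ico m m' ⊆ Finset.Ico 1 m' := Finset.Ico_subset_Ico_left h0
    rw [← Finset.sum_subset hsub]
    · refine Finset.sum_congr rfl fun n hn => ?_
      simp [hy', (Finset.mem_Ico.mp hn).1]
    · intro n hn hn'
      rw [Finset.mem_Ico] at hn hn'
      have : ¬ m ≤ n := fun hh => hn' ⟨hh, hn.2⟩
      simp [hy', this]
  have s2 := H.second (m := 1) (m' := m') one_pos (by omega) (x := d0) (y := y') (y' := d1)
    hy'p hd1p (by rw [p0 1 one_pos]; exact H.ub.nrm 0) (by rw [p2]; exact hy)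
    (by rw [p1]; exact H.ub.nrm 1) α β
  rwa [p0 1 one_pos, p2, p1] at s2




/-- absolute values -/
lemma norm_abs (h : UB e) (a : ℕ →₀ ℝ) (s : Finset ℕ) (hs : a.support ⊆ s) :
    ‖Finsupp.linearCombination ℝ e a‖ = ‖∑ n ∈ s, |a n| • e n‖ := by
  classical
  have h1 := pc_unc h (fun n => if 0 ≤ a n then 1 else -1)
    (fun n => by by_cases hn : 0 ≤ a n <;> simp [hn]) s a
  rw [Finsupp.linearCombination_apply, Finsupp.sum_of_support_subset a hs (fun n r => r • e n)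
    (fun n _ => zero_smul _ _), ← h1]
  congr 1
  refine Finset.sum_congr rfl fun n _ => ?_
  by_cases hn : 0 ≤ a n
  · simp [hn, abs_of_nonneg hn]
  · simp [hn, abs_of_neg (not_le.mp hn)]

theorem Small.blocks {C : Set ((ℕ → ℕ) × (ℕ → ℝ))} (H : Small e C) (m : ℕ) (a b : ℕ →₀ ℝ)
    (ha : ∀ i, a i ≠ 0 → i < m) (hb : ∀ i, b i ≠ 0 → m ≤ i) :
    ‖Finsupp.linearCombination ℝ e a + Finsupp.linearCombination ℝ e b‖ =
      ‖‖Finsupp.linearCombination ℝ e a‖ • e 0 + ‖Finsupp.linearCombination ℝ e b‖ • e 1‖ := by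
  classical
  set s := ‖Finsupp.linearCombination ℝ e a‖ with hs
  set t := ‖Finsupp.linearCombination ℝ e b‖ with ht
  by_cases hs0 : s = 0
  · have h1 : Finsupp.linearCombination ℝ e a = 0 := norm_eq_zero.mp hs0
    rw [h1, hs0, zero_add, zero_smul, zero_add, norm_smul, H.ub.nrm, mul_one, ht, norm_norm]
  by_cases ht0 : t = 0
  · have h1 : Finsupp.linearCombination ℝ e b = 0 := norm_eq_zero.mp ht0
    rw [h1, ht0, add_zero, zero_smul, add_zero, norm_smul, H.ub.nrm, mul_one, hs, norm_norm]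
  have hspos : 0 < s := lt_of_le_of_ne (norm_nonneg _) (Ne.symm hs0)
  have htpos : 0 < t := lt_of_le_of_ne (norm_nonneg _) (Ne.symm ht0)
  have hane : ∃ i, a i ≠ 0 := by
    by_contra hcon
    push Not at hcon
    have : a = 0 := Finsupp.ext hcon
    rw [this, map_zero, norm_zero] at hs
    exact hs0 hs
  have hbne : ∃ i, b i ≠ 0 := by
    by_contra hcon
    push Not at hcon
    have : b = 0 := Finsupp.ext hcon
    rw [this, map_zero, norm_zero] at ht
    exact ht0 ht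
  obtain ⟨i0, hi0⟩ := hane
  obtain ⟨j0, hj0⟩ := hbne
  have hm : 0 < m := lt_of_le_of_lt (Nat.zero_le _) (ha i0 hi0)
  set m' := b.support.sup id + 1 with hm'
  have hbm : ∀ i, b i ≠ 0 → i < m' := by
    intro i hi
    have : i ≤ b.support.sup id := Finset.le_sup (f := id) (Finsupp.mem_support_iff.mpr hi)
    omega
  have hmm : m < m' := lt_of_le_of_lt (hb j0 hj0) (hbm j0 hj0)
  have sa : a.support ⊆ Finset.Ico 0 m := by
    intro i hi
    rw [Finsupp.mem_support_iff] at hi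
    simpa using ha i hi
  have sb : b.support ⊆ Finset.Ico m m' := by
    intro i hi
    rw [Finsupp.mem_support_iff] at hi
    rw [Finset.mem_Ico]
    exact ⟨hb i hi, hbm i hi⟩
  have ea : s = ‖pc e 0 m (fun n => |a n|)‖ := norm_abs H.ub a _ sa
  have eb : t = ‖pc e m m' (fun n => |b n|)‖ := norm_abs H.ub b _ sb
  have sab : (a + b).support ⊆ Finset.Ico 0 m' := by
    refine Finsupp.support_add.trans (Finset.union_subset ?_ ?_)
    · exact sa.trans (Finset.Ico_subset_Ico_right hmm.le)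
    · exact sb.trans (Finset.Ico_subset_Ico_left (Nat.zero_le _))
  have eab : ‖Finsupp.linearCombination ℝ e a + Finsupp.linearCombination ℝ e b‖ =
      ‖pc e 0 m (fun n => |a n|) + pc e m m' (fun n => |b n|)‖ := by
    rw [← map_add, norm_abs H.ub (a + b) _ sab]
    congr 1
    unfold pc
    rw [← Finset.sum_Ico_consecutive _ (Nat.zero_le m) hmm.le]
    congr 1
    · refine Finset.sum_congr rfl fun n hn => ?_
      have h1 : n < m := (Finset.mem_Ico.mp hn).2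
      have h2 : b n = 0 := by
        by_contra hne
        have := hb n hne
        omega
      rw [Finsupp.add_apply, h2, add_zero]
    · refine Finset.sum_congr rfl fun n hn => ?_
      have h1 : m ≤ n := (Finset.mem_Ico.mp hn).1
      have h2 : a n = 0 := by
        by_contra hne
        have := ha n hne
        omega
      rw [Finsupp.add_apply, h2, zero_add]
  have h3 := H.two hm hmm (x := fun n => s⁻¹ * |a n|) (y := fun n => t⁻¹ * |b n|)
    (fun n => mul_nonneg (inv_nonneg.mpr hspos.le) (abs_nonneg _))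
    (fun n => mul_nonneg (inv_nonneg.mpr htpos.le) (abs_nonneg _))
    (by rw [pc_smul, norm_smul, ← ea, norm_inv, Real.norm_eq_abs, abs_of_pos hspos,
          inv_mul_cancel₀ hs0])
    (by rw [pc_smul, norm_smul, ← eb, norm_inv, Real.norm_eq_abs, abs_of_pos htpos,
          inv_mul_cancel₀ ht0]) s t
  rw [pc_smul, pc_smul, smul_smul, smul_smul, mul_inv_cancel₀ hs0, mul_inv_cancel₀ ht0, one_smul,
    one_smul] at h3
  rw [eab, h3]

/-- representatives of the isometry classes of block subspaces -/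
theorem reps (e : ℕ → X) :
    (∃ F : ℝ → (ℕ → ℕ) × (ℕ → ℝ), (∀ t, IsNBlk e (F t).1 (F t).2 ∧ Tail (F t).1) ∧
      ∀ s t, s ≠ t → IsEmpty (blkSpan e (F s).1 (F s).2 ≃ₗᵢ[ℝ] blkSpan e (F t).1 (F t).2)) ∨
    (∃ C : Set ((ℕ → ℕ) × (ℕ → ℝ)), #C < 𝔠 ∧ (∀ w ∈ C, IsNBlk e w.1 w.2) ∧
      ∀ p b, IsNBlk e p b → Tail p → ∃ w ∈ C, Nonempty (blkSpan e p b ≃ₗᵢ[ℝ] blkSpan e w.1 w.2)) := by
  classical
  let W := {w : (ℕ → ℕ) × (ℕ → ℝ) // IsNBlk e w.1 w.2 ∧ Tail w.1}
  let S : Setoid W :=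
    { r := fun v w => Nonempty (blkSpan e v.1.1 v.1.2 ≃ₗᵢ[ℝ] blkSpan e w.1.1 w.1.2)
      iseqv := ⟨fun v => ⟨LinearIsometryEquiv.refl ℝ _⟩, fun ⟨T⟩ => ⟨T.symm⟩,
        fun ⟨T⟩ ⟨T'⟩ => ⟨T.trans T'⟩⟩ }
  let g : Quotient S → (ℕ → ℕ) × (ℕ → ℝ) := fun q => (q.out).1
  have hg : Function.Injective g := by
    intro q q' hqq
    have h1 : q.out = q'.out := Subtype.ext hqq
    rw [← Quotient.out_eq q, ← Quotient.out_eq q', h1]
  have hcard : #(Set.range g) = #(Quotient S) := Cardinal.mk_range_eq g hg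
  rcases lt_or_ge #(Set.range g) 𝔠 with hlt | hge
  · right
    refine ⟨Set.range g, hlt, ?_, ?_⟩
    · rintro _ ⟨q, rfl⟩
      exact (q.out).2.1
    · intro p b hb hp
      let v : W := ⟨(p, b), hb, hp⟩
      refine ⟨g (Quotient.mk S v), ⟨_, rfl⟩, ?_⟩
      have h2 : S.r (Quotient.mk S v).out v := Quotient.mk_out v
      obtain ⟨T⟩ := h2
      exact ⟨T.symm⟩
  · left
    rw [hcard, ← Cardinal.mk_real] at hge
    obtain ⟨f⟩ : Nonempty (ℝ ↪ Quotient S) := hge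
    refine ⟨fun t => g (f t), fun t => (f t).out.2, ?_⟩
    intro s t hst
    refine ⟨fun T => hst (f.injective ?_)⟩
    rw [← Quotient.out_eq (f s), ← Quotient.out_eq (f t)]
    exact Quotient.sound ⟨T⟩

end Pool.Agent.H83.Blk
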