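import Pool.Agent.H83.Blk.Defs

set_option autoImplicit false
open Filter Topology

namespace Pool.Agent.H83.Blk
namespace UB

variable {Z : Type} [NormedAddCommGroup Z] [NormedSpace ℝ Z]

open Classical in
/-- the sign vector of a set -/
noncomputable def sgv (A : Set ℕ) (n : ℕ) : ℝ := if n ∈ A then -1 else 1

theorem sgv_pm (A : Set ℕ) (n : ℕ) : sgv A n = 1 ∨ sgv A n = -1 := by
  unfold sgv; split_ifs
  · right; rfl
  · left; rfl

theorem sgv_mem {A : Set ℕ} {n : ℕ} (h : n ∈ A) : sgv A n = -1 := if_pos h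

theorem sgv_not {A : Set ℕ} {n : ℕ} (h : n ∉ A) : sgv A n = 1 := if_neg h

theorem sgv_sq (A : Set ℕ) (n : ℕ) : sgv A n * sgv A n = 1 := by
  rcases sgv_pm A n with h | h <;> rw [h] <;> norm_num

variable {e : ℕ → Z}

theorem ext' {W : Type} [NormedAddCommGroup W] [NormedSpace ℝ W] (h : UB e) {T S : Z →L[ℝ] W}
    (hTS : ∀ n, T (e n) = S (e n)) : T = S := by
  have h1 : (T : Z →ₗ[ℝ] W) ∘ₗ Finsupp.linearCombination ℝ e =
      (S : Z →ₗ[ℝ] W) ∘ₗ Finsupp.linearCombination ℝ e := by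
    refine Finsupp.lhom_ext fun n c => ?_
    simp [Finsupp.linearCombination_single, hTS n]
  have h2 : (T : Z → W) = S := by
    refine h.dense.equalizer T.continuous S.continuous ?_
    ext a
    exact congrArg (fun f => f a) h1
  ext x
  exact congrFun h2 x

theorem ext'' {W : Type} [NormedAddCommGroup W] [NormedSpace ℝ W] (h : UB e) {T S : Z →L[ℝ] W}
    (hTS : ∀ n, T (e n) = S (e n)) (x : Z) : T x = S x := by rw [h.ext' hTS]

variable [CompleteSpace Z]

/-- sign change operator -/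
noncomputable def sg (_h : UB e) (A : Set ℕ) : Z →L[ℝ] Z :=
  (Finsupp.linearCombination ℝ (fun n => sgv A n • e n)).extendOfNorm
    (Finsupp.linearCombination ℝ e)

theorem sg_L (h : UB e) (A : Set ℕ) (a : ℕ →₀ ℝ) :
    h.sg A (Finsupp.linearCombination ℝ e a) =
      Finsupp.linearCombination ℝ (fun n => sgv A n • e n) a :=
  LinearMap.extendOfNorm_eq h.dense ⟨1, fun x => by rw [h.unc _ (sgv_pm A), one_mul]⟩ a

theorem sg_e (h : UB e) (A : Set ℕ) (n : ℕ) : h.sg A (e n) = sgv A n • e n := by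
  have := h.sg_L A (Finsupp.single n 1)
  simpa using this

theorem norm_sg_le (h : UB e) (A : Set ℕ) (x : Z) : ‖h.sg A x‖ ≤ ‖x‖ := by
  have := LinearMap.norm_extendOfNorm_apply_le (f := Finsupp.linearCombination ℝ
    (fun n => sgv A n • e n)) h.dense 1 (fun x => by rw [h.unc _ (sgv_pm A), one_mul]) x
  simpa [sg] using this

theorem sg_sg (h : UB e) (A : Set ℕ) (x : Z) : h.sg A (h.sg A x) = x := by
  refine h.ext'' (T := (h.sg A).comp (h.sg A)) (S := ContinuousLinearMap.id ℝ Z) (fun n => ?_) x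
  simp [sg_e, smul_smul, sgv_sq]

theorem norm_sg (h : UB e) (A : Set ℕ) (x : Z) : ‖h.sg A x‖ = ‖x‖ := by
  refine le_antisymm (h.norm_sg_le A x) ?_
  have := h.norm_sg_le A (h.sg A x)
  rwa [sg_sg] at this

/-- projection on the coordinates in `A` -/
noncomputable def pj (h : UB e) (A : Set ℕ) : Z →L[ℝ] Z :=
  (1 / 2 : ℝ) • (ContinuousLinearMap.id ℝ Z - h.sg A)

theorem pj_apply (h : UB e) (A : Set ℕ) (x : Z) : h.pj A x = (1 / 2 : ℝ) • (x - h.sg A x) := rfl

theorem sg_eq (h : UB e) (A : Set ℕ) (x : Z) : h.sg A x = x - (2 : ℝ) • h.pj A x := by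
  rw [pj_apply]; module

theorem pj_mem (h : UB e) {A : Set ℕ} {n : ℕ} (hn : n ∈ A) : h.pj A (e n) = e n := by
  rw [pj_apply, sg_e, sgv_mem hn]; module

theorem pj_not (h : UB e) {A : Set ℕ} {n : ℕ} (hn : n ∉ A) : h.pj A (e n) = 0 := by
  rw [pj_apply, sg_e, sgv_not hn]; module

theorem norm_pj_le (h : UB e) (A : Set ℕ) (x : Z) : ‖h.pj A x‖ ≤ ‖x‖ := by
  rw [pj_apply, norm_smul]
  have h1 : ‖x - h.sg A x‖ ≤ ‖x‖ + ‖x‖ := by
    refine (norm_sub_le _ _).trans ?_
    rw [norm_sg]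
  have h2 : ‖(1 / 2 : ℝ)‖ = 1 / 2 := by norm_num
  rw [h2]
  linarith

theorem pj_single_L (h : UB e) (n : ℕ) (a : ℕ →₀ ℝ) :
    h.pj {n} (Finsupp.linearCombination ℝ e a) = a n • e n := by
  have h1 : ((h.pj {n} : Z →L[ℝ] Z) : Z →ₗ[ℝ] Z) ∘ₗ Finsupp.linearCombination ℝ e =
      (LinearMap.toSpanSingleton ℝ Z (e n)) ∘ₗ (Finsupp.lapply n) := by
    refine Finsupp.lhom_ext fun m c => ?_
    by_cases hm : m = n
    · subst hm
      simp [h.pj_mem (Set.mem_singleton m)]
    · have : m ∉ ({n} : Set ℕ) := hm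
      simp [h.pj_not this, hm]
  have := congrArg (fun f => f a) h1
  simpa using this

theorem abs_le_norm_L (h : UB e) (n : ℕ) (a : ℕ →₀ ℝ) :
    ‖(Finsupp.lapply n : (ℕ →₀ ℝ) →ₗ[ℝ] ℝ) a‖ ≤ 1 * ‖Finsupp.linearCombination ℝ e a‖ := by
  have h1 := h.norm_pj_le {n} (Finsupp.linearCombination ℝ e a)
  rw [pj_single_L, norm_smul, h.nrm, mul_one] at h1
  simpa using h1

/-- coordinate functional -/
noncomputable def co (_h : UB e) (n : ℕ) : Z →L[ℝ] ℝ :=
  (Finsupp.lapply n : (ℕ →₀ ℝ) →ₗ[ℝ] ℝ).extendOfNorm (Finsupp.linearCombination ℝ e)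

theorem co_L (h : UB e) (n : ℕ) (a : ℕ →₀ ℝ) :
    h.co n (Finsupp.linearCombination ℝ e a) = a n := by
  have := LinearMap.extendOfNorm_eq (f := (Finsupp.lapply n : (ℕ →₀ ℝ) →ₗ[ℝ] ℝ)) h.dense
    ⟨1, h.abs_le_norm_L n⟩ a
  simpa [co] using this

theorem co_self (h : UB e) (n : ℕ) : h.co n (e n) = 1 := by
  have := h.co_L n (Finsupp.single n 1)
  simpa using this

theorem co_ne (h : UB e) {n m : ℕ} (hnm : n ≠ m) : h.co n (e m) = 0 := by
  have := h.co_L n (Finsupp.single m 1)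
  simpa [Finsupp.single_apply, hnm.symm, hnm] using this

theorem norm_co_le (h : UB e) (n : ℕ) (x : Z) : |h.co n x| ≤ ‖x‖ := by
  have := LinearMap.norm_extendOfNorm_apply_le (f := (Finsupp.lapply n : (ℕ →₀ ℝ) →ₗ[ℝ] ℝ))
    h.dense 1 (h.abs_le_norm_L n) x
  simpa [co] using this

theorem pj_single (h : UB e) (n : ℕ) (x : Z) : h.pj {n} x = h.co n x • e n := by
  refine h.ext'' (T := h.pj {n}) (S := (h.co n).smulRight (e n)) (fun m => ?_) x
  by_cases hm : n = m
  · subst hm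
    simp [h.pj_mem (Set.mem_singleton n), co_self]
  · have : m ∉ ({n} : Set ℕ) := fun h' => hm h'.symm
    simp [h.pj_not this, h.co_ne hm]

theorem rp (h : UB e) (n : ℕ) : RP (e n) (h.co n) where
  one := h.co_self n
  nrm := h.nrm n
  refl := by
    intro x
    have : x - (2 * h.co n x) • e n = h.sg {n} x := by
      rw [sg_eq, pj_single]; module
    rw [this, norm_sg]

theorem co_pj_mem (h : UB e) {A : Set ℕ} {n : ℕ} (hn : n ∈ A) (x : Z) :
    h.co n (h.pj A x) = h.co n x := by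
  refine h.ext'' (T := (h.co n).comp (h.pj A)) (S := h.co n) (fun m => ?_) x
  by_cases hm : m ∈ A
  · simp [h.pj_mem hm]
  · have hnm : n ≠ m := by rintro rfl; exact hm hn
    simp [h.pj_not hm, h.co_ne hnm]

theorem co_pj_not (h : UB e) {A : Set ℕ} {n : ℕ} (hn : n ∉ A) (x : Z) :
    h.co n (h.pj A x) = 0 := by
  refine h.ext'' (T := (h.co n).comp (h.pj A)) (S := 0) (fun m => ?_) x
  by_cases hm : m ∈ A
  · have hnm : n ≠ m := by rintro rfl; exact hn hm
    simp [h.pj_mem hm, h.co_ne hnm]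
  · simp [h.pj_not hm]

theorem pj_union (h : UB e) {A B : Set ℕ} (hAB : Disjoint A B) (x : Z) :
    h.pj (A ∪ B) x = h.pj A x + h.pj B x := by
  refine h.ext'' (T := h.pj (A ∪ B)) (S := h.pj A + h.pj B) (fun m => ?_) x
  by_cases hA : m ∈ A
  · have hB : m ∉ B := Set.disjoint_left.1 hAB hA
    simp [h.pj_mem hA, h.pj_not hB, h.pj_mem (Set.mem_union_left B hA)]
  · by_cases hB : m ∈ B
    · simp [h.pj_not hA, h.pj_mem hB, h.pj_mem (Set.mem_union_right A hB)]
    · have : m ∉ A ∪ B := by simp [hA, hB]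
      simp [h.pj_not hA, h.pj_not hB, h.pj_not this]

theorem pj_pj (h : UB e) (A B : Set ℕ) (x : Z) : h.pj A (h.pj B x) = h.pj (A ∩ B) x := by
  refine h.ext'' (T := (h.pj A).comp (h.pj B)) (S := h.pj (A ∩ B)) (fun m => ?_) x
  by_cases hB : m ∈ B
  · by_cases hA : m ∈ A
    · simp [h.pj_mem hA, h.pj_mem hB, h.pj_mem (show m ∈ A ∩ B from ⟨hA, hB⟩)]
    · have : m ∉ A ∩ B := fun h' => hA h'.1
      simp [h.pj_not hA, h.pj_mem hB, h.pj_not this]
  · have : m ∉ A ∩ B := fun h' => hB h'.2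
    simp [h.pj_not hB, h.pj_not this]

theorem pj_empty (h : UB e) (x : Z) : h.pj ∅ x = 0 :=
  h.ext'' (T := h.pj ∅) (S := 0) (fun m => by simp [h.pj_not (Set.notMem_empty m)]) x

theorem pj_univ (h : UB e) (x : Z) : h.pj Set.univ x = x :=
  h.ext'' (T := h.pj Set.univ) (S := ContinuousLinearMap.id ℝ Z)
    (fun m => by simp [h.pj_mem (Set.mem_univ m)]) x

theorem pj_add_compl (h : UB e) (A : Set ℕ) (x : Z) : h.pj A x + h.pj Aᶜ x = x := by
  rw [← h.pj_union disjoint_compl_right, Set.union_compl_self, pj_univ]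

theorem pj_range (h : UB e) (N : ℕ) (x : Z) :
    h.pj (Set.Iio N) x = ∑ i ∈ Finset.range N, h.co i x • e i := by
  induction N with
  | zero =>
    have : Set.Iio 0 = (∅ : Set ℕ) := by ext; simp
    rw [this, pj_empty]; simp
  | succ N ih =>
    have h1 : Set.Iio (N + 1) = Set.Iio N ∪ {N} := by
      ext m; simp only [Set.mem_Iio, Set.mem_union, Set.mem_singleton_iff]; omega
    rw [h1, h.pj_union (by simp), ih, Finset.sum_range_succ, pj_single]

theorem pj_L_of_supp (h : UB e) (N : ℕ) (a : ℕ →₀ ℝ) (ha : ∀ i ∈ a.support, i < N) :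
    h.pj (Set.Iio N) (Finsupp.linearCombination ℝ e a) = Finsupp.linearCombination ℝ e a := by
  rw [Finsupp.linearCombination_apply, Finsupp.sum, map_sum]
  refine Finset.sum_congr rfl fun i hi => ?_
  rw [map_smul, h.pj_mem (show i ∈ Set.Iio N from ha i hi)]

theorem tendsto_pj (h : UB e) (x : Z) :
    Tendsto (fun N => h.pj (Set.Iio N) x) atTop (𝓝 x) := by
  rw [Metric.tendsto_atTop]
  intro ε hε
  obtain ⟨a, ha⟩ := h.dense.exists_dist_lt x (half_pos hε)
  refine ⟨a.support.sup id + 1, fun N hN => ?_⟩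
  have h1 : h.pj (Set.Iio N) (Finsupp.linearCombination ℝ e a) =
      Finsupp.linearCombination ℝ e a := by
    refine h.pj_L_of_supp N a fun i hi => ?_
    have := Finset.le_sup (f := id) hi
    simp only [id] at this
    omega
  have h2 : h.pj (Set.Iio N) x - x = h.pj (Set.Iio N) (x - Finsupp.linearCombination ℝ e a) -
      (x - Finsupp.linearCombination ℝ e a) := by
    rw [map_sub, h1]; abel
  rw [dist_eq_norm, h2]
  rw [dist_eq_norm] at ha
  calc _ ≤ ‖h.pj (Set.Iio N) (x - Finsupp.linearCombination ℝ e a)‖ +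
        ‖x - Finsupp.linearCombination ℝ e a‖ := norm_sub_le _ _
    _ ≤ ‖x - Finsupp.linearCombination ℝ e a‖ + ‖x - Finsupp.linearCombination ℝ e a‖ := by
        gcongr; exact h.norm_pj_le _ _
    _ < ε := by linarith

theorem tendsto_sum (h : UB e) (x : Z) :
    Tendsto (fun N => ∑ i ∈ Finset.range N, h.co i x • e i) atTop (𝓝 x) := by
  have := h.tendsto_pj x
  simpa only [pj_range] using this

theorem co_ext (h : UB e) {x y : Z} (hxy : ∀ n, h.co n x = h.co n y) : x = y := by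
  refine tendsto_nhds_unique (h.tendsto_sum x) ?_
  simp only [hxy]
  exact h.tendsto_sum y

theorem pj_of_supp (h : UB e) {A : Set ℕ} {x : Z} (hx : ∀ n, n ∉ A → h.co n x = 0) :
    h.pj A x = x := by
  refine h.co_ext fun n => ?_
  by_cases hn : n ∈ A
  · rw [h.co_pj_mem hn]
  · rw [h.co_pj_not hn, hx n hn]

theorem eq_sum_of_finite (h : UB e) {x : Z} (F : Finset ℕ) (hF : ∀ n, n ∉ F → h.co n x = 0) :
    x = ∑ n ∈ F, h.co n x • e n := by
  refine h.co_ext fun m => ?_
  rw [map_sum]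
  by_cases hm : m ∈ F
  · rw [Finset.sum_eq_single m]
    · simp [co_self]
    · intro n _ hn
      simp [h.co_ne hn.symm]
    · intro h'; exact absurd hm h'
  · rw [hF m hm, Finset.sum_eq_zero]
    intro n hn
    have : m ≠ n := by rintro rfl; exact hm hn
    simp [h.co_ne this]

theorem exists_co_ne_zero (h : UB e) {x : Z} (hx : x ≠ 0) : ∃ n, h.co n x ≠ 0 := by
  by_contra hcon
  push Not at hcon
  exact hx (h.co_ext fun n => by rw [hcon n, map_zero])

end UB
end Pool.Agent.H83.Blk
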