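import Pool.Agent.H83.Blk.Gen
import Pool.Agent.H83.Blk.UB

set_option autoImplicit false
open Filter Topology

namespace Pool.Agent.H83.Blk
namespace UB

variable {Z : Type} [NormedAddCommGroup Z] [NormedSpace ℝ Z] [CompleteSpace Z] {e : ℕ → Z}

theorem bi (h : UB e) {i j : ℕ} (hij : i ≠ j) : Bi (e i) (e j) (h.co i) (h.co j) :=
  ⟨h.co_self i, h.co_self j, h.co_ne hij, h.co_ne hij.symm⟩

/-- rotation relation of the coordinates -/
def rel (h : UB e) (i j : ℕ) : Prop := i = j ∨ Full (e i) (e j) (h.co i) (h.co j)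

theorem rel_refl (h : UB e) (i : ℕ) : h.rel i i := Or.inl rfl

theorem rel_symm (h : UB e) {i j : ℕ} (hij : h.rel i j) : h.rel j i := by
  rcases hij with hij | hij
  · exact Or.inl hij.symm
  · exact Or.inr hij.swap

theorem rel_trans (h : UB e) {i j k : ℕ} (hij : h.rel i j) (hjk : h.rel j k) : h.rel i k := by
  by_cases e1 : i = j
  · rw [e1]; exact hjk
  by_cases e2 : j = k
  · rw [← e2]; exact hij
  by_cases e3 : i = k
  · exact Or.inl e3
  have F1 := hij.resolve_left e1
  have F2 := hjk.resolve_left e2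
  right
  intro t x
  set K := rotE (h.bi e1) F1 (Real.pi / 2) with hK
  have k0 : K x = x + (-(h.co i x) - h.co j x) • e i + (h.co i x - h.co j x) • e j := by
    rw [hK, rotE_apply, rot, Real.cos_pi_div_two, Real.sin_pi_div_two]; module
  have k1 : h.co j (K x) = h.co i x := by
    rw [k0]; simp only [map_add, map_smul, h.co_self, h.co_ne (Ne.symm e1), smul_eq_mul]; ring
  have k2 : h.co k (K x) = h.co k x := by
    rw [k0]
    simp only [map_add, map_smul, h.co_ne (Ne.symm e3), h.co_ne (Ne.symm e2), smul_eq_mul]; ring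
  have k3 : K (e i) = e j := by
    rw [hK, rotE_apply, rot, Real.cos_pi_div_two, Real.sin_pi_div_two, h.co_self,
      h.co_ne (Ne.symm e1)]; module
  have k4 : K (e k) = e k := by
    rw [hK, rotE_apply, rot, h.co_ne e3, h.co_ne e2]; module
  have key : rot (e j) (e k) (h.co j) (h.co k) t (K x) =
      K (rot (e i) (e k) (h.co i) (h.co k) t x) := by
    simp only [rot, map_add, map_smul, k1, k2, k3, k4]
  have := F2 t (K x)
  rw [key, LinearIsometryEquiv.norm_map, LinearIsometryEquiv.norm_map] at this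
  exact this

variable {g : Z} {φ : Z →L[ℝ] ℝ}

theorem p_nonneg (h : UB e) (hg : RP g φ) (n : ℕ) : 0 ≤ h.co n g * φ (e n) :=
  ((h.rp n).pair hg).1

theorem p_pos (h : UB e) (hg : RP g φ) {n : ℕ} (hn : h.co n g ≠ 0) : 0 < h.co n g * φ (e n) := by
  obtain ⟨h1, -, h2, -⟩ := (h.rp n).pair hg
  exact lt_of_le_of_ne h1 (mul_ne_zero hn fun h0 => hn (h2.2 h0)).symm

theorem phi_eq_zero (h : UB e) (hg : RP g φ) {n : ℕ} (hn : h.co n g = 0) : φ (e n) = 0 :=
  ((h.rp n).pair hg).2.2.1.1 hn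

/-- (irrational coordinate) -/
theorem full_of_irr_co (h : UB e) (hg : RP g φ) {j n : ℕ} (hjn : j ≠ n)
    (hq : h.co j g * φ (e j) ∉ Q2) (hn : h.co n g ≠ 0) :
    Full (e n) (e j) (h.co n) (h.co j) :=
  full_of_irr_pair (h.rp j) hg (h.rp n) hq (h.co_ne hjn.symm) (h.co_ne hjn) hn

/-- weight of a set of coordinates -/
noncomputable def wt (h : UB e) (g : Z) (φ : Z →L[ℝ] ℝ) (A : Set ℕ) : ℝ := φ (h.pj A g)

/-- image of a reflection under a sign change -/
theorem rp_sg (h : UB e) (hg : RP g φ) (A : Set ℕ) : RP (h.sg A g) (φ.comp (h.sg A)) where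
  one := by simp [sg_sg, hg.one]
  nrm := by rw [norm_sg, hg.nrm]
  refl := by
    intro x
    have h1 := hg.refl (h.sg A x)
    rw [norm_sg] at h1
    rw [← h1, ← h.norm_sg A]
    simp [sg_sg]

theorem wt_bounds (h : UB e) (hg : RP g φ) (A : Set ℕ) :
    0 ≤ h.wt g φ A ∧ h.wt g φ A ≤ 1 := by
  obtain ⟨h1, h2, -, -⟩ := hg.pair (h.rp_sg hg A)
  have e1 : φ (h.sg A g) = 1 - 2 * h.wt g φ A := by
    rw [sg_eq]; simp [wt, hg.one]
  have e2 : (φ.comp (h.sg A)) g = 1 - 2 * h.wt g φ A := by simp [e1]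
  rw [e1, e2] at h2
  constructor <;> nlinarith

theorem wt_single (h : UB e) (n : ℕ) : h.wt g φ {n} = h.co n g * φ (e n) := by
  simp [wt, pj_single]

theorem wt_union (h : UB e) {A B : Set ℕ} (hAB : Disjoint A B) :
    h.wt g φ (A ∪ B) = h.wt g φ A + h.wt g φ B := by
  simp [wt, h.pj_union hAB]

theorem wt_compl (h : UB e) (hg : RP g φ) (A : Set ℕ) : h.wt g φ Aᶜ = 1 - h.wt g φ A := by
  have := congrArg φ (h.pj_add_compl A g)
  rw [map_add, hg.one] at this
  simp only [wt]; linarith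

theorem wt_lt (h : UB e) (hg : RP g φ) {A B : Set ℕ} (hAB : A ⊆ B) {j : ℕ} (hjB : j ∈ B)
    (hjA : j ∉ A) (hj : h.co j g ≠ 0) : h.wt g φ A < h.wt g φ B := by
  have e1 : B = A ∪ ({j} ∪ (B \ (A ∪ {j}))) := by
    ext m
    simp only [Set.mem_union, Set.mem_singleton_iff, Set.mem_sdiff]
    constructor
    · intro hm
      by_cases h1 : m ∈ A
      · exact Or.inl h1
      · by_cases h2 : m = j
        · exact Or.inr (Or.inl h2)
        · exact Or.inr (Or.inr ⟨hm, by tauto⟩)
    · rintro (h1 | h1 | h1)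
      · exact hAB h1
      · rw [h1]; exact hjB
      · exact h1.1
  rw [e1, h.wt_union, h.wt_union, h.wt_single]
  · have := h.p_pos hg hj
    have := (h.wt_bounds hg (B \ (A ∪ {j}))).1
    linarith
  · rw [Set.disjoint_left]
    intro m hm hm'
    exact hm'.2 (Or.inr hm)
  · rw [Set.disjoint_left]
    rintro m hm (hm' | hm')
    · rw [Set.mem_singleton_iff] at hm'
      rw [hm'] at hm; exact hjA hm
    · exact hm'.2 (Or.inl hm)

/-- (irrational set of coordinates) -/
theorem full_of_irr_set (h : UB e) (hg : RP g φ) {A : Set ℕ} (hq : h.wt g φ A ∉ Q2) {n l : ℕ}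
    (hnA : n ∈ A) (hlA : l ∉ A) (hn : h.co n g ≠ 0) (hl : h.co l g ≠ 0) :
    Full (e l) (e n) (h.co l) (h.co n) := by
  obtain ⟨p0, p1⟩ := h.wt_bounds hg A
  set p := h.wt g φ A with hp
  have hp0 : 0 < p := lt_of_le_of_ne p0 fun h => hq (by rw [← h]; exact zero_mem_Q2)
  have hp1 : p < 1 := lt_of_le_of_ne p1 fun h => hq (by rw [h]; exact one_mem_Q2)
  have hpc : φ (h.pj Aᶜ g) = 1 - p := h.wt_compl hg A
  have hpA : φ (h.pj A g) = p := rfl
  set s := Real.sqrt p with hs
  set u := Real.sqrt (1 - p) with hu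
  have hs0 : 0 < s := Real.sqrt_pos.2 hp0
  have hu0 : 0 < u := Real.sqrt_pos.2 (by linarith)
  have hs2 : s * s = p := Real.mul_self_sqrt hp0.le
  have hu2 : u * u = 1 - p := Real.mul_self_sqrt (by linarith)
  have hs1 : s ≤ 1 := by nlinarith
  set a : Z := s⁻¹ • h.pj A g with ha
  set b : Z := u⁻¹ • h.pj Aᶜ g with hb
  set fa : Z →L[ℝ] ℝ := s⁻¹ • φ.comp (h.pj A) with hfa
  set fb : Z →L[ℝ] ℝ := u⁻¹ • φ.comp (h.pj Aᶜ) with hfb
  have hB : Bi a b fa fb := by
    refine ⟨?_, ?_, ?_, ?_⟩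
    · simp only [ha, hfa, ContinuousLinearMap.smul_apply, ContinuousLinearMap.comp_apply, map_smul,
        pj_pj, Set.inter_self, smul_eq_mul, hpA]
      rw [← hs2]; field_simp
    · simp only [hb, hfb, ContinuousLinearMap.smul_apply, ContinuousLinearMap.comp_apply, map_smul,
        pj_pj, Set.inter_self, smul_eq_mul, hpc]
      rw [← hu2]; field_simp
    · simp only [hb, hfa, ContinuousLinearMap.smul_apply, ContinuousLinearMap.comp_apply, map_smul,
        pj_pj, Set.inter_compl_self, pj_empty, map_zero, smul_zero]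
    · simp only [ha, hfb, ContinuousLinearMap.smul_apply, ContinuousLinearMap.comp_apply, map_smul,
        pj_pj, Set.compl_inter_self, pj_empty, map_zero, smul_zero]
  have hcos : Real.cos (Real.arccos s) = s := Real.cos_arccos (by linarith) hs1
  have hsin : Real.sin (Real.arccos s) = u := by
    rw [Real.sin_arccos, pow_two, hs2]
  have hgab : g = s • a + u • b := by
    rw [ha, hb, smul_smul, smul_smul, mul_inv_cancel₀ hs0.ne', mul_inv_cancel₀ hu0.ne', one_smul,
      one_smul, pj_add_compl]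
  have hφab : ∀ x, φ x = s * fa x + u * fb x := by
    intro x
    simp only [hfa, hfb, ContinuousLinearMap.smul_apply, ContinuousLinearMap.comp_apply,
      smul_eq_mul]
    rw [mul_inv_cancel_left₀ hs0.ne', mul_inv_cancel_left₀ hu0.ne', ← map_add, pj_add_compl]
  have hN1 : ∀ x, ‖rfl' a b fa fb (Real.arccos s) x‖ = ‖x‖ :=
    norm_rfl_of_rp hg (r := 1) one_ne_zero (by rw [hcos, hsin, one_smul]; exact hgab)
      (by intro x; rw [hcos, hsin, inv_one, one_mul]; exact hφab x)
  have hsga : h.sg A a = -a := by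
    rw [ha, map_smul, sg_eq, pj_pj, Set.inter_self]; module
  have hsgb : h.sg A b = b := by
    rw [hb, map_smul, sg_eq, pj_pj, Set.inter_compl_self, pj_empty]; simp
  have hfsa : ∀ x, fa (h.sg A x) = -fa x := by
    intro x
    simp only [hfa, ContinuousLinearMap.smul_apply, ContinuousLinearMap.comp_apply, sg_eq,
      map_sub, map_smul, pj_pj, Set.inter_self, smul_eq_mul]
    ring
  have hfsb : ∀ x, fb (h.sg A x) = fb x := by
    intro x
    simp only [hfb, ContinuousLinearMap.smul_apply, ContinuousLinearMap.comp_apply, sg_eq,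
      map_sub, map_smul, pj_pj, Set.compl_inter_self, pj_empty, smul_eq_mul, map_zero]
    ring
  have hN2 : ∀ x, ‖rfl' a b fa fb (Real.pi - Real.arccos s) x‖ = ‖x‖ := by
    refine norm_rfl_of_rp (h.rp_sg hg A) (r := 1) one_ne_zero ?_ ?_
    · rw [Real.cos_pi_sub, Real.sin_pi_sub, hcos, hsin, one_smul]
      conv_lhs => rw [hgab]
      rw [map_add, (h.sg A).map_smul s a, (h.sg A).map_smul u b, hsga, hsgb]; module
    · intro x
      rw [Real.cos_pi_sub, Real.sin_pi_sub, hcos, hsin, inv_one, one_mul,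
        ContinuousLinearMap.comp_apply, hφab, hfsa, hfsb]; ring
  have hmem := nps_of_rfl hB hN1 hN2
  have hF : Full a b fa fb := by
    refine full_of_irr hB hmem fun q hq' => hq ⟨(q + 1) / 2, ?_⟩
    have : Real.arccos s = Real.pi * (((q + 1) / 2 : ℚ) : ℝ) := by
      push_cast; linarith
    rw [← this, hcos, pow_two, hs2]
  have hlc : l ∈ Aᶜ := hlA
  have hnc : n ∉ Aᶜ := fun h' => h' hnA
  -- first step: the plane of `e n` and `b`
  have hpn := h.p_pos hg hn
  have hpl := h.p_pos hg hl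
  have h1 : h.co n b = 0 := by rw [hb, map_smul, h.co_pj_not hnc, smul_zero]
  have h2 : fb (e n) = 0 := by
    simp only [hfb, ContinuousLinearMap.smul_apply, ContinuousLinearMap.comp_apply,
      h.pj_not hnc, map_zero, smul_zero]
  obtain ⟨r, hr, hF1⟩ := gen hB.swap hF.swap (h.rp n) h1 h2 (by
    have e1 : fa (e n) * h.co n a = (s⁻¹ * s⁻¹) * (h.co n g * φ (e n)) := by
      simp only [hfa, ha, ContinuousLinearMap.smul_apply, ContinuousLinearMap.comp_apply,
        h.pj_mem hnA, map_smul, h.co_pj_mem hnA, smul_eq_mul]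
      ring
    rw [e1]; positivity)
  have hB1 : Bi (e n) (r • b) (h.co n) (r⁻¹ • fb) := by
    refine ⟨h.co_self n, ?_, by rw [map_smul, h1, smul_zero], by
      rw [ContinuousLinearMap.smul_apply, h2, smul_zero]⟩
    rw [ContinuousLinearMap.smul_apply, map_smul, hB.bb, smul_eq_mul, smul_eq_mul, mul_one,
      inv_mul_cancel₀ hr]
  have hln : l ≠ n := by rintro rfl; exact hlA hnA
  refine gen_one hB1 hF1 (h.nrm n) (h.rp l) (h.co_ne hln) (h.co_ne hln.symm) ?_
  have e1 : (r⁻¹ • fb) (e l) * h.co l (r • b) = (u⁻¹ * u⁻¹) * (h.co l g * φ (e l)) := by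
    simp only [hfb, hb, ContinuousLinearMap.smul_apply, ContinuousLinearMap.comp_apply,
      h.pj_mem hlc, map_smul, h.co_pj_mem hlc, smul_eq_mul]
    field_simp
  rw [e1]; positivity

/-- infinite support -/
theorem full_of_infinite (h : UB e) (hg : RP g φ) (hinf : {n | h.co n g ≠ 0}.Infinite)
    {n l : ℕ} (hnl : n ≠ l) (hn : h.co n g ≠ 0) (hl : h.co l g ≠ 0) :
    Full (e l) (e n) (h.co l) (h.co n) := by
  set S : Set ℕ := {m | h.co m g ≠ 0} \ {n, l} with hS
  have hSinf : S.Infinite := hinf.sdiff (Set.toFinite _)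
  let τ : ℚ → ℕ := fun q => (hSinf.natEmbedding S (Encodable.encode q) : ℕ)
  have hτS : ∀ q, τ q ∈ S := fun q => (hSinf.natEmbedding S (Encodable.encode q)).2
  have hτinj : Function.Injective τ := by
    intro q q' hqq
    have := Subtype.ext (p := fun x => x ∈ S) hqq
    exact Encodable.encode_injective ((hSinf.natEmbedding S).injective this)
  let A : ℝ → Set ℕ := fun r => {n} ∪ τ '' {q : ℚ | (q : ℝ) < r}
  have hmono : StrictMono fun r => h.wt g φ (A r) := by
    intro r r' hrr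
    obtain ⟨q, hq1, hq2⟩ := exists_rat_btwn hrr
    refine h.wt_lt hg (j := τ q) ?_ ?_ ?_ (hτS q).1
    · refine Set.union_subset_union_right _ (Set.image_mono ?_)
      intro q' hq'
      exact lt_trans hq' hrr
    · exact Or.inr ⟨q, hq2, rfl⟩
    · rintro (h1 | ⟨q', hq', h1⟩)
      · exact (hτS q).2 (Or.inl h1)
      · have := hτinj h1
        rw [this] at hq'
        exact absurd hq' (not_lt.2 hq1.le)
  have hex : ∃ r, h.wt g φ (A r) ∉ Q2 := by
    by_contra hcon
    push Not at hcon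
    have h1 : (Set.univ : Set ℝ).Countable := by
      refine (countable_Q2.preimage_of_injOn (f := fun r => h.wt g φ (A r))
        (hmono.injective.injOn)).mono fun r _ => hcon r
    exact Cardinal.not_countable_real h1
  obtain ⟨r, hr⟩ := hex
  refine h.full_of_irr_set hg hr (Or.inl rfl) ?_ hn hl
  rintro (h1 | ⟨q, -, h1⟩)
  · exact hnl h1.symm
  · exact (hτS q).2 (Or.inr h1)

theorem circle_param {x y : ℝ} (hxy : x ^ 2 + y ^ 2 = 1) :
    ∃ t, Real.cos t = x ∧ Real.sin t = y := by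
  have h1 : x ≤ 1 := by nlinarith
  have h2 : -1 ≤ x := by nlinarith
  have h3 : Real.sqrt (1 - x ^ 2) = |y| := by
    rw [← Real.sqrt_sq_eq_abs]; congr 1; linarith
  rcases le_total 0 y with hy | hy
  · exact ⟨Real.arccos x, Real.cos_arccos h2 h1, by rw [Real.sin_arccos, h3, abs_of_nonneg hy]⟩
  · exact ⟨-Real.arccos x, by rw [Real.cos_neg, Real.cos_arccos h2 h1], by
      rw [Real.sin_neg, Real.sin_arccos, h3, abs_of_nonpos hy, neg_neg]⟩

/-- a reflection vector meeting a nontrivial class has its support in this class -/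
theorem rel_of_meet (h : UB e) (hg : RP g φ) {i j : ℕ} (hij : i ≠ j)
    (hF : Full (e i) (e j) (h.co i) (h.co j)) (hj : h.co j g ≠ 0) {l : ℕ} (hl : h.co l g ≠ 0) :
    h.rel l i := by
  -- the case `co i g = 0`
  have key : ∀ (g' : Z) (φ' : Z →L[ℝ] ℝ), RP g' φ' → h.co i g' = 0 → h.co j g' ≠ 0 →
      ∀ l, h.co l g' ≠ 0 → l ≠ i → Full (e l) (e i) (h.co l) (h.co i) := by
    intro g' φ' hg' h1 h2 l hl hli
    have h3 : φ' (e i) = 0 := h.phi_eq_zero hg' h1
    have hF1 : Full g' (e i) φ' (h.co i) := by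
      refine gen_one (h.bi hij) hF (h.nrm i) hg' h3 h1 (h.p_pos hg' h2)
    have hB1 : Bi (e i) g' (h.co i) φ' := ⟨h.co_self i, hg'.one, h1, h3⟩
    refine gen_one hB1 hF1.swap (h.nrm i) (h.rp l) (h.co_ne hli) (h.co_ne hli.symm) ?_
    have := h.p_pos hg' hl
    linarith
  by_cases hli : l = i
  · exact Or.inl hli
  by_cases hlj : l = j
  · rw [hlj]; exact Or.inr hF.swap
  set α := h.co i g with hα
  set β := h.co j g with hβ
  have hβ2 : 0 < β ^ 2 := by positivity
  have hρ0 : 0 < α ^ 2 + β ^ 2 := by positivity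
  set ρ := Real.sqrt (α ^ 2 + β ^ 2) with hρ
  have hρp : 0 < ρ := Real.sqrt_pos.2 hρ0
  have hρ2 : ρ ^ 2 = α ^ 2 + β ^ 2 := Real.sq_sqrt hρ0.le
  obtain ⟨t, ht1, ht2⟩ := circle_param (x := β / ρ) (y := α / ρ) (by
    rw [div_pow, div_pow, ← add_div, hρ2, add_comm]; exact div_self (by positivity))
  obtain ⟨φ', -, hg'⟩ := hg.map_rot (h.bi hij) hF t
  right
  refine key _ _ hg' ?_ ?_ l ?_ hli
  · rw [fa_rot (h.bi hij), ht1, ht2, ← hα, ← hβ]; ring
  · rw [fb_rot (h.bi hij), ht1, ht2, ← hα, ← hβ]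
    have : α / ρ * α + β / ρ * β = ρ := by
      have : α / ρ * α + β / ρ * β = (α ^ 2 + β ^ 2) / ρ := by ring
      rw [this, ← hρ2]; field_simp
    rw [this]; exact hρp.ne'
  · have : h.co l (rot (e i) (e j) (h.co i) (h.co j) t g) = h.co l g := by
      simp only [rot, map_add, map_smul, h.co_ne hli, h.co_ne hlj, smul_zero, add_zero]
    rw [this]; exact hl

end UB
end Pool.Agent.H83.Blk
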